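import Pool.Agent.Lib.MP_5c1789_lc.Cond

/-!
# The number of conditions and of nice names
-/

open Set Cardinal

namespace Pool.Agent.Lib.MP_5c1789_lc

/-- the first uncountable ordinal -/
noncomputable def w1 : Ordinal.{0} := (aleph 1).ord

/-- the index set: collapse coordinates and Cohen coordinates -/
abbrev Jx : Type 1 := (Ordinal.{0} ⊕ Set Ordinal.{0}) × Iio w1

/-- the bounds: subsets of `a` in the coordinate `a`, subsets of `1` in the Cohen coordinates -/
noncomputable def bx : Jx → Ordinal.{0}
  | (Sum.inl a, _) => a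
  | (Sum.inr _, _) => 1

/-- the forcing -/
abbrev Pm : Type 1 := Cnd Jx bx

/-- codes of nice names -/
abbrev Codes : Type 1 := Ordinal.{0} → Ordinal.{0} → {W : Set Pm // Small.{0} W}

theorem ord_inf : ℵ₀ ≤ #Ordinal.{0} := by
  rw [Cardinal.aleph0_le_mk_iff]
  exact Infinite.of_injective (fun n : ℕ => (n : Ordinal.{0})) Nat.cast_injective

theorem two_pow_pow : ((2 : Cardinal.{1}) ^ #Ordinal.{0}) ^ #Ordinal.{0} = 2 ^ #Ordinal.{0} := by
  rw [← power_mul, mul_eq_self ord_inf]

theorem inf2 : ℵ₀ ≤ (2 : Cardinal.{1}) ^ #Ordinal.{0} :=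
  ord_inf.trans (cantor _).le

theorem mk_smallSets {α : Type 1} (h : #α ≤ 2 ^ (#Ordinal.{0})) :
    #{W : Set α // Small.{0} W} ≤ 2 ^ (#Ordinal.{0}) := by
  classical
  have h1 : #{W : Set α // Small.{0} W} ≤ #(Ordinal.{0} → Option α) := by
    have hinj : ∀ W : {W : Set α // Small.{0} W}, ∃ i : W.1 → Ordinal.{0},
        Function.Injective i := by
      rintro ⟨W, hW⟩
      refine ⟨fun x => (embeddingToCardinal (equivShrink.{0} W x)).ord, ?_⟩
      intro x y hxy
      have h2 := Cardinal.ord_injective hxy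
      exact (equivShrink W).injective (embeddingToCardinal.injective h2)
    choose i hi using hinj
    refine mk_le_of_injective (f := fun W o => if h : ∃ x : W.1, i W x = o then
      some h.choose.1 else none) ?_
    intro W W' hWW
    have key : ∀ V V' : {W : Set α // Small.{0} W},
        (fun o => if h : ∃ x : V.1, i V x = o then some h.choose.1 else none) =
        (fun o => if h : ∃ x : V'.1, i V' x = o then some h.choose.1 else none) →
        V.1 ⊆ V'.1 := by
      intro V V' hV x hx
      have h2 : ∃ y : V.1, i V y = i V ⟨x, hx⟩ := ⟨_, rfl⟩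
      have h3 : h2.choose = ⟨x, hx⟩ := hi V h2.choose_spec
      have h4 := congrFun hV (i V ⟨x, hx⟩)
      simp only [dif_pos h2, h3] at h4
      by_cases h5 : ∃ y : V'.1, i V' y = i V ⟨x, hx⟩
      · rw [dif_pos h5] at h4
        have h6 : x = h5.choose.1 := Option.some.inj h4
        rw [h6]
        exact h5.choose.2
      · rw [dif_neg h5] at h4
        exact absurd h4 (by simp)
    exact Subtype.ext (subset_antisymm (key _ _ hWW) (key _ _ hWW.symm))
  refine h1.trans ?_
  rw [← Cardinal.power_def, mk_option]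
  calc (#α + 1) ^ #Ordinal.{0} ≤ (2 ^ #Ordinal.{0}) ^ #Ordinal.{0} := by
        refine power_le_power_right ?_
        exact add_le_of_le inf2 h (one_le_aleph0.trans inf2)
    _ = _ := two_pow_pow

theorem mk_Jx : #Jx ≤ 2 ^ (#Ordinal.{0}) := by
  have h1 : #(Ordinal.{0} ⊕ Set Ordinal.{0}) ≤ 2 ^ (#Ordinal.{0}) := by
    rw [mk_sum, mk_set, lift_id, lift_id]
    exact add_le_of_le inf2 (cantor _).le le_rfl
  have h2 : #(Iio w1) ≤ 2 ^ (#Ordinal.{0}) := (mk_set_le _).trans (cantor _).le
  rw [mk_prod, lift_id, lift_id]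
  exact (mul_le_mul' h1 h2).trans (mul_eq_self inf2).le

theorem mk_Pm : #Pm ≤ 2 ^ (#Ordinal.{0}) := by
  classical
  have h1 : #(Jx × Set Ordinal.{0}) ≤ 2 ^ (#Ordinal.{0}) := by
    rw [mk_prod, lift_id, lift_id, mk_set]
    exact (mul_le_mul' mk_Jx le_rfl).trans (mul_eq_self inf2).le
  refine le_trans ?_ (mk_smallSets h1)
  refine mk_le_of_injective (f := fun p => ⟨{t | p.f t.1 = some t.2}, ?_⟩) ?_
  · have h2 : Countable {t : Jx × Set Ordinal.{0} | p.f t.1 = some t.2} := by
      have h3 : Countable {j | p.f j ≠ none} := p.ct.to_subtype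
      refine Function.Injective.countable (β := {j | p.f j ≠ none})
        (f := fun t => ⟨t.1.1, ?_⟩) ?_
      · show p.f t.1.1 ≠ none
        rw [show p.f t.1.1 = some t.1.2 from t.2]
        simp
      · rintro ⟨⟨j, S⟩, h⟩ ⟨⟨j', S'⟩, h'⟩ e
        simp only [Subtype.mk.injEq] at e
        subst e
        have h4 : some S = some S' := (show p.f j = some S from h).symm.trans h'
        simp only [Option.some.injEq] at h4
        subst h4
        rfl
    exact Countable.toSmall _
  · intro p q h
    simp only [Subtype.mk.injEq] at h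
    have hf : p.f = q.f := by
      funext j
      have h2 : ∀ S, p.f j = some S ↔ q.f j = some S := fun S => by
        have : (j, S) ∈ {t : Jx × Set Ordinal.{0} | p.f t.1 = some t.2} ↔
          (j, S) ∈ {t : Jx × Set Ordinal.{0} | q.f t.1 = some t.2} := by rw [h]
        exact this
      exact Option.ext h2
    cases p
    cases q
    simpa using hf

/-- there are at most as many codes as Cohen coordinates -/
theorem exists_code : ∃ e : Set Ordinal.{0} → Codes, Function.Surjective e := by
  have h1 : #Codes ≤ #(Set Ordinal.{0}) := by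
    have h2 : #{W : Set Pm // Small.{0} W} ≤ 2 ^ (#Ordinal.{0}) := mk_smallSets mk_Pm
    have h3 : #(Ordinal.{0} → {W : Set Pm // Small.{0} W}) ≤ 2 ^ (#Ordinal.{0}) := by
      rw [← Cardinal.power_def]
      exact (power_le_power_right h2).trans two_pow_pow.le
    show #(Ordinal.{0} → Ordinal.{0} → {W : Set Pm // Small.{0} W}) ≤ _
    rw [← Cardinal.power_def, mk_set]
    exact (power_le_power_right h3).trans two_pow_pow.le
  obtain ⟨g⟩ := h1
  have : Nonempty Codes := ⟨fun _ _ => ⟨∅, inferInstance⟩⟩
  exact ⟨Function.invFun g, Function.invFun_surjective g.injective⟩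

theorem w1_countable {x : Ordinal.{0}} (hx : x < w1) : (Iio x).Countable := by
  rw [← Cardinal.le_aleph0_iff_set_countable, Cardinal.mk_Iio_ordinal, ← lift_aleph0.{1, 0},
    lift_le]
  have h1 := Cardinal.lt_ord.1 hx
  rw [← succ_aleph0] at h1
  exact Order.lt_succ_iff.1 h1

theorem w1_uncountable : ¬ (Iio w1).Countable := by
  rw [← Cardinal.le_aleph0_iff_set_countable, Cardinal.mk_Iio_ordinal, ← lift_aleph0.{1, 0},
    lift_le, w1, card_ord, not_le]
  exact aleph0_lt_aleph_one

end Pool.Agent.Lib.MP_5c1789_lc
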