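import Mathlib

/-!
# The conditions: countable partial functions with values in small sets

The values are subsets of proper initial segments of the ordinals of the first universe, which play
the role of the ordinals below an inaccessible cardinal.
-/

open Set Cardinal

namespace Pool.Agent.Lib.MP_5c1789_lc

/-- countable partial functions `f` on `J` such that `f j ⊆ β j` -/
structure Cnd (J : Type 1) (β : J → Ordinal.{0}) where
  f : J → Option (Set Ordinal.{0})
  ct : {j | f j ≠ none}.Countable
  bd : ∀ j S, f j = some S → S ⊆ Iio (β j)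

namespace Cnd

variable {J : Type 1} {β : J → Ordinal.{0}}

instance : Preorder (Cnd J β) where
  le q p := ∀ j S, p.f j = some S → q.f j = some S
  le_refl p := fun _ _ h => h
  le_trans r q p h h' := fun j S hS => h j S (h' j S hS)

instance : Nonempty (Cnd J β) := ⟨⟨fun _ => none, by simp, by simp⟩⟩

/-- the domain -/
def dm (p : Cnd J β) : Set J := {j | p.f j ≠ none}

theorem dm_countable (p : Cnd J β) : p.dm.Countable := p.ct

theorem exists_ext (p : Cnd J β) {j : J} (hj : p.f j = none) {S : Set Ordinal.{0}}
    (hS : S ⊆ Iio (β j)) : ∃ q : Cnd J β, q ≤ p ∧ q.f j = some S := by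
  classical
  refine ⟨⟨fun i => if i = j then some S else p.f i, ?_, ?_⟩, ?_, by simp⟩
  · refine (p.ct.insert j).mono ?_
    intro i hi
    by_cases h : i = j
    · exact Or.inl h
    · right
      simpa [h] using hi
  · intro i S' h
    by_cases h1 : i = j
    · subst h1
      simp only [if_true, Option.some.injEq] at h
      rw [← h]; exact hS
    · simp only [h1, if_false] at h
      exact p.bd i S' h
  · intro i S' h
    have h1 : i ≠ j := by
      rintro rfl
      rw [hj] at h
      exact absurd h (by simp)
    simpa [h1] using h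

theorem dense_dom (p : Cnd J β) (j : J) : ∃ q : Cnd J β, q ≤ p ∧ ∃ S, q.f j = some S := by
  rcases h : p.f j with _ | S
  · obtain ⟨q, hq, h1⟩ := p.exists_ext h (empty_subset (Iio (β j)))
    exact ⟨q, hq, _, h1⟩
  · exact ⟨p, le_rfl, S, h⟩

theorem distr (D : ℕ → Cnd J β → Prop) (hopen : ∀ n p q, D n p → q ≤ p → D n q)
    (hdense : ∀ n p, ∃ q, q ≤ p ∧ D n q) (p : Cnd J β) : ∃ q, q ≤ p ∧ ∀ n, D n q := by
  classical
  choose f hf1 hf2 using hdense
  let s : ℕ → Cnd J β := fun n => Nat.rec p (fun n x => f n x) n
  have hs : ∀ n, s (n + 1) ≤ s n := fun n => hf1 n (s n)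
  have hanti : ∀ n m, n ≤ m → s m ≤ s n := fun n m h => antitone_nat_of_succ_le hs h
  let g : J → Option (Set Ordinal.{0}) := fun j =>
    if h : ∃ n, (s n).f j ≠ none then (s h.choose).f j else none
  have hg : ∀ n j S, (s n).f j = some S → g j = some S := by
    intro n j S hS
    have h : ∃ n, (s n).f j ≠ none := ⟨n, by rw [hS]; simp⟩
    show (if h : ∃ n, (s n).f j ≠ none then (s h.choose).f j else none) = some S
    rw [dif_pos h]
    obtain ⟨S', hS'⟩ := Option.ne_none_iff_exists'.1 h.choose_spec
    rcases le_total n h.choose with h1 | h1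
    · exact hanti _ _ h1 j S hS
    · have h2 := hanti _ _ h1 j S' hS'
      rw [hS] at h2
      rw [hS', ← h2]
  have hg' : ∀ j, g j ≠ none → ∃ n, (s n).f j = g j := by
    intro j hj
    by_cases h : ∃ n, (s n).f j ≠ none
    · refine ⟨h.choose, ?_⟩
      show _ = (if h : ∃ n, (s n).f j ≠ none then (s h.choose).f j else none)
      rw [dif_pos h]
    · exact absurd (dif_neg h) hj
  let q : Cnd J β := ⟨g, by
    refine (countable_iUnion fun n => (s n).ct).mono ?_
    intro j hj
    obtain ⟨n, hn⟩ := hg' j hj
    exact mem_iUnion.2 ⟨n, by show (s n).f j ≠ none; rw [hn]; exact hj⟩, by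
    intro j S hS
    obtain ⟨n, hn⟩ := hg' j (by rw [hS]; simp)
    exact (s n).bd j S (hn.trans hS)⟩
  have hq : ∀ n, q ≤ s n := fun n j S hS => hg n j S hS
  exact ⟨q, hq 0, fun n => hopen n _ _ (hf2 n (s n)) (hq (n + 1))⟩

theorem small_opt (α : Type 1) [Small.{0} α] : Small.{0} (Option α) :=
  small_map (Equiv.optionEquivSumPUnit.{0, 1} α)

/-- the conditions with domain in a small set form a small set -/
theorem small_sub (Y : Set J) (hY : Small.{0} Y) : Small.{0} {p : Cnd J β | p.dm ⊆ Y} := by
  classical
  have h1 : ∀ y : Y, Small.{0} (Option (Set (Iio (β y.1)))) := fun y => small_opt _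
  have h2 : Small.{0} ((y : Y) → Option (Set (Iio (β y.1)))) := small_Pi _
  refine small_of_injective (β := (y : Y) → Option (Set (Iio (β y.1))))
    (f := fun p y => (p.1.f y.1).map fun S => {x | x.1 ∈ S}) ?_
  rintro ⟨p, hp⟩ ⟨q, hq⟩ h
  apply Subtype.ext
  have hf : ∀ j, p.f j = q.f j := by
    intro j
    by_cases hj : j ∈ Y
    · have h3 : (p.f j).map (fun S => {x : Iio (β j) | x.1 ∈ S}) =
          (q.f j).map (fun S => {x : Iio (β j) | x.1 ∈ S}) := congrFun h ⟨j, hj⟩
      rcases hpj : p.f j with _ | S
      · rcases hqj : q.f j with _ | S'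
        · rfl
        · rw [hpj, hqj] at h3
          exact absurd h3 (by simp)
      · rcases hqj : q.f j with _ | S'
        · rw [hpj, hqj] at h3
          exact absurd h3 (by simp)
        · rw [hpj, hqj] at h3
          simp only [Option.map_some, Option.some.injEq] at h3
          congr 1
          ext x
          constructor
          · intro hx
            have hx' : x ∈ Iio (β j) := p.bd j S hpj hx
            have : (⟨x, hx'⟩ : Iio (β j)) ∈ {x : Iio (β j) | x.1 ∈ S'} := by
              rw [← h3]; exact hx
            exact this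
          · intro hx
            have hx' : x ∈ Iio (β j) := q.bd j S' hqj hx
            have : (⟨x, hx'⟩ : Iio (β j)) ∈ {x : Iio (β j) | x.1 ∈ S} := by
              rw [h3]; exact hx
            exact this
    · have h3 : p.f j = none := by
        by_contra h4; exact hj (hp h4)
      have h5 : q.f j = none := by
        by_contra h4; exact hj (hq h4)
      rw [h3, h5]
  cases p
  cases q
  simp only [Cnd.mk.injEq]
  exact funext hf

/-- the stages of the closure -/
noncomputable def stage (w : Cnd J β → Cnd J β) : Ordinal.{0} → Set J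
  | i => ⋃ j : Iio i, ⋃ q : {q : Cnd J β // q.dm ⊆ stage w j.1}, (w q.1).dm
termination_by i => i
decreasing_by exact j.2

theorem mem_stage {w : Cnd J β → Cnd J β} {i : Ordinal.{0}} {x : J} :
    x ∈ stage w i ↔ ∃ j, j < i ∧ ∃ q : Cnd J β, q.dm ⊆ stage w j ∧ x ∈ (w q).dm := by
  rw [stage]
  simp only [mem_iUnion]
  constructor
  · rintro ⟨⟨j, hj⟩, ⟨q, hq⟩, h⟩
    exact ⟨j, hj, q, hq, h⟩
  · rintro ⟨j, hj, q, hq, h⟩
    exact ⟨⟨j, hj⟩, ⟨q, hq⟩, h⟩

theorem stage_mono {w : Cnd J β → Cnd J β} {i i' : Ordinal.{0}} (h : i ≤ i') :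
    stage w i ⊆ stage w i' := by
  intro x hx
  rw [mem_stage] at hx ⊢
  obtain ⟨j, hj, h1⟩ := hx
  exact ⟨j, hj.trans_le h, h1⟩

theorem small_stage (w : Cnd J β → Cnd J β) (i : Ordinal.{0}) : Small.{0} (stage w i) := by
  induction i using WellFoundedLT.induction with
  | ind i ih =>
    rw [stage]
    have h1 : ∀ j : Iio i, Small.{0} ↥(⋃ q : {q : Cnd J β // q.dm ⊆ stage w j.1},
        (w q.1).dm) := by
      intro j
      have h2 : Small.{0} {q : Cnd J β // q.dm ⊆ stage w j.1} := small_sub _ (ih j.1 j.2)
      have h3 : ∀ q : {q : Cnd J β // q.dm ⊆ stage w j.1}, Small.{0} (w q.1).dm := by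
        intro q
        have : Countable (w q.1).dm := (w q.1).ct.to_subtype
        exact Countable.toSmall _
      exact small_iUnion _
    exact small_iUnion _

/-- a small set closed under a function on conditions -/
theorem exists_closed (w : Cnd J β → Cnd J β) :
    ∃ Y : Set J, Small.{0} Y ∧ ∀ q : Cnd J β, q.dm ⊆ Y → (w q).dm ⊆ Y := by
  classical
  let a : Ordinal.{0} := (aleph 1).ord
  have hreg : (aleph 1).IsRegular := isRegular_aleph_one
  refine ⟨stage w a, small_stage w a, ?_⟩
  intro q hq
  have key : ∃ s, s < a ∧ q.dm ⊆ stage w s := by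
    rcases q.dm.eq_empty_or_nonempty with h0 | hne
    · refine ⟨0, ?_, by rw [h0]; exact empty_subset _⟩
      exact (isSuccLimit_ord hreg.aleph0_le).bot_lt
    · obtain ⟨e, he⟩ := q.ct.exists_eq_range hne
      have he' : q.dm = range e := he
      have h1 : ∀ n, ∃ j, j < a ∧ e n ∈ stage w (Order.succ j) := by
        intro n
        have h2 : e n ∈ stage w a := hq (by rw [he']; exact mem_range_self n)
        obtain ⟨j, hj, q', hq', h3⟩ := mem_stage.1 h2
        exact ⟨j, hj, mem_stage.2 ⟨j, Order.lt_succ j, q', hq', h3⟩⟩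
      choose j hj1 hj2 using h1
      have hlim : ∀ x < a, Order.succ x < a :=
        fun x hx => (isSuccLimit_ord hreg.aleph0_le).succ_lt hx
      refine ⟨⨆ n, Order.succ (j n), ?_, ?_⟩
      · refine Ordinal.iSup_lt_of_lt_cof ?_ fun n => hlim _ (hj1 n)
        rw [mk_nat, hreg.cof_ord]
        exact aleph0_lt_aleph_one
      · rw [he']
        rintro _ ⟨n, rfl⟩
        exact stage_mono (Ordinal.le_iSup _ n) (hj2 n)
  obtain ⟨s, hs, h1⟩ := key
  intro x hx
  exact mem_stage.2 ⟨s, hs, q, h1, hx⟩

/-- antichains are small -/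
theorem cc (W : Set (Cnd J β)) (hW : ∀ p ∈ W, ∀ q ∈ W, (∃ r, r ≤ p ∧ r ≤ q) → p = q) :
    Small.{0} W := by
  classical
  let w : Cnd J β → Cnd J β := fun q => if h : ∃ x ∈ W, x ≤ q then h.choose else q
  obtain ⟨Y, hY, hcl⟩ := exists_closed w
  have key : W ⊆ {p : Cnd J β | p.dm ⊆ Y} := by
    intro x hx
    let q : Cnd J β := ⟨fun j => if j ∈ Y then x.f j else none, by
      refine x.ct.mono ?_
      intro j hj
      by_cases h : j ∈ Y
      · simpa [h] using hj
      · simp [h] at hj, by
      intro j S h
      by_cases h1 : j ∈ Y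
      · simp only [h1, if_true] at h
        exact x.bd j S h
      · simp [h1] at h⟩
    have hqY : q.dm ⊆ Y := by
      intro j hj
      by_contra h
      exact hj (by show (if j ∈ Y then x.f j else none) = none; simp [h])
    have hxq : x ≤ q := by
      intro j S h
      by_cases h1 : j ∈ Y
      · have h2 : q.f j = x.f j := by show (if j ∈ Y then x.f j else none) = _; simp [h1]
        rw [← h2]; exact h
      · have h2 : q.f j = none := by show (if j ∈ Y then x.f j else none) = _; simp [h1]
        rw [h2] at h
        exact absurd h (by simp)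
    have hex : ∃ x ∈ W, x ≤ q := ⟨x, hx, hxq⟩
    have hw : w q = hex.choose := dif_pos hex
    have hwW : w q ∈ W := by rw [hw]; exact hex.choose_spec.1
    have hwq : w q ≤ q := by rw [hw]; exact hex.choose_spec.2
    have hwY : (w q).dm ⊆ Y := hcl q hqY
    have hcomp : ∃ r, r ≤ x ∧ r ≤ w q := by
      refine ⟨⟨fun j => if (w q).f j = none then x.f j else (w q).f j, ?_, ?_⟩, ?_, ?_⟩
      · refine (x.ct.union (w q).ct).mono ?_
        intro j hj
        by_cases h : (w q).f j = none
        · left; simpa [h] using hj
        · exact Or.inr h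
      · intro j S h
        by_cases h1 : (w q).f j = none
        · simp only [h1, if_true] at h
          exact x.bd j S h
        · simp only [h1, if_false] at h
          exact (w q).bd j S h
      · intro j S h
        show (if (w q).f j = none then x.f j else (w q).f j) = some S
        by_cases h1 : (w q).f j = none
        · simpa [h1] using h
        · have h2 : j ∈ Y := hwY h1
          have h3 : q.f j = some S := by
            show (if j ∈ Y then x.f j else none) = _
            simpa [h2] using h
          simp only [h1, if_false]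
          exact hwq j S h3
      · intro j S h
        show (if (w q).f j = none then x.f j else (w q).f j) = some S
        have h1 : (w q).f j ≠ none := by rw [h]; simp
        simpa [h1] using h
    have hxw : x = w q := hW x hx _ hwW hcomp
    show x.dm ⊆ Y
    rw [hxw]
    exact hwY
  have := small_sub (β := β) Y hY
  exact small_subset key

end Cnd

end Pool.Agent.Lib.MP_5c1789_lc
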