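import Pool.Agent.Lib.MP_5c1789_lc.Core

/-!
# Continuous maps which depend on the restriction to the first uncountable cardinal

Everything takes place in a model `(M, E)` of ZFC.
-/

set_option linter.unusedSimpArgs false

namespace Pool.Agent.Lib.MP_5c1789_lc

open Pool.Agent.Lib.Forcing Pool.Agent.Lib.MP_40b13d_lc

variable {M : Type*} {E : M → M → Prop}

def renG : ℕ → ℕ
  | 0 => 1
  | 1 => 0
  | n + 2 => n + 4

def fG (φ : Fml) : Fml := fex (.fand (.fmem 0 3) (.fand (dOPair 2 1 0) (φ.ren renG)))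

/-- functions defined by formulas -/
theorem exists_graph (H : IsZFC M E) (F b : M) (φ : Fml) (v : ℕ → M)
    (h : ∀ x, E x F → ∃! y, E y b ∧ Sat E φ (cons x (cons y v))) :
    ∃ f, IsFun E f F b ∧ ∀ x y, IsApp E f x y ↔
      E x F ∧ E y b ∧ Sat E φ (cons x (cons y v)) := by
  have key : ∀ x z, Sat E (fG φ) (cons x (cons z (cons b v))) ↔
      ∃ y, E y b ∧ IsOPair E z x y ∧ Sat E φ (cons x (cons y v)) := by
    intro x z
    simp only [fG, sat_ex, sat_and, sat_mem, sat_dOPair, sat_ren, cons_zero, cons_one, cons_two,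
      cons_three]
    have : ∀ y, (fun n => cons y (cons x (cons z (cons b v))) (renG n)) = cons x (cons y v) := by
      intro y
      funext n
      match n with
      | 0 => rfl
      | 1 => rfl
      | n + 2 => rfl
    simp only [this]
  obtain ⟨f, hf⟩ := H.replacement (fG φ) (cons b v) F (fun x hx => by
    simp only [key]
    obtain ⟨y, ⟨hy, hy'⟩, hu⟩ := h x hx
    obtain ⟨z, hz⟩ := exists_opair H x y
    refine ⟨z, ⟨y, hy, hz, hy'⟩, ?_⟩
    rintro z' ⟨y', h1, h2, h3⟩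
    have h4 : y' = y := hu y' ⟨h1, h3⟩
    subst h4
    exact h2.unique H hz)
  simp only [key] at hf
  have happ : ∀ x y, IsApp E f x y ↔ E x F ∧ E y b ∧ Sat E φ (cons x (cons y v)) := by
    intro x y
    constructor
    · rintro ⟨z, hz, hp⟩
      obtain ⟨x', hx', y', hy', hp', hs⟩ := (hf z).1 hz
      obtain ⟨rfl, rfl⟩ := hp.inj H hp'
      exact ⟨hx', hy', hs⟩
    · rintro ⟨hx, hy, hs⟩
      obtain ⟨z, hz⟩ := exists_opair H x y
      exact ⟨z, (hf z).2 ⟨x, hx, y, hy, hz, hs⟩, hz⟩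
  refine ⟨f, ⟨?_, ?_⟩, happ⟩
  · intro z hz
    obtain ⟨x', hx', y', hy', hp', _⟩ := (hf z).1 hz
    exact ⟨x', y', hx', hy', hp'⟩
  · intro x hx
    obtain ⟨y, ⟨hy, hy'⟩, hu⟩ := h x hx
    refine ⟨y, ⟨hy, (happ x y).2 ⟨hx, hy, hy'⟩⟩, ?_⟩
    rintro y' ⟨h1, h2⟩
    exact hu y' ⟨h1, ((happ x y').1 h2).2.2⟩

/-- `d = {u ∈ w : x(u) = ∅}` -/
def IsZ (E : M → M → Prop) (w x d : M) : Prop :=
  ∀ u, E u d ↔ E u w ∧ ∃ e, IsZero E e ∧ IsApp E x u e

def fZ (w x d : ℕ) : Fml :=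
  .fall (fiff (.fmem 0 (d + 1)) (.fand (.fmem 0 (w + 1))
    (fex (.fand (fZero 0) (dApp (x + 2) 1 0)))))

@[simp] theorem sat_fZ {w x d : ℕ} {v : ℕ → M} :
    Sat E (fZ w x d) v ↔ IsZ E (v w) (v x) (v d) := by
  simp only [fZ, IsZ, sat_all, sat_iff, sat_and, sat_mem, sat_ex, sat_fZero, sat_dApp, cons_zero,
    cons_succ, cons_one]

theorem exists_isZ (H : IsZFC M E) (w x : M) : ∃ d, IsZ E w x d := by
  obtain ⟨d, hd⟩ := H.separation (fex (.fand (fZero 0) (dApp 2 1 0))) (fun _ => x) w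
  refine ⟨d, fun u => ?_⟩
  rw [hd]
  simp only [sat_ex, sat_and, sat_fZero, sat_dApp, cons_zero, cons_one, cons_two]

theorem IsZ.unique (H : IsZFC M E) {w x d d' : M} (h : IsZ E w x d) (h' : IsZ E w x d') :
    d = d' := H.extensionality _ _ fun u => (h u).trans (h' u).symm

theorem IsZ.congr {w x x' d : M} (h : AgreeOn E w x x') (hd : IsZ E w x d) : IsZ E w x' d := by
  intro u
  rw [hd u]
  refine and_congr_right fun hu => exists_congr fun e => and_congr_right fun _ => ?_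
  exact h u hu e

/-- the main construction -/
theorem exists_cont (H : IsZFC M E) {D g F b w k z0 z1 : M}
    (hw : E w k) (hk : IsTrans E k) (h0 : E z0 k) (h0' : IsZero E z0) (h1 : E z1 k)
    (h1' : ¬ IsZero E z1)
    (hD : ∀ d, E d D → IsSub E d w) (hF : IsFunSpace E k F)
    (hg : IsFun E g D F) (hg' : ∀ y, E y F → ∃ x, IsApp E g x y)
    (hb : ∀ y, E y b → E y F) (hne : ∃ y, E y b) : ∃ f, IsContSurj E k F b f := by
  obtain ⟨y0, hy0⟩ := hne
  obtain ⟨f, hf, hfa⟩ := exists_graph H F b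
    (ffor (fex (.fand (fZ 4 1 0) (dApp 3 0 2)))
      (.fand (.fneg (fex (fex (.fand (fZ 5 2 1) (.fand (dApp 4 1 0) (.fmem 0 6))))))
        (.feq 1 5)))
    (cons g (cons w (cons b fun _ => y0))) (by
      intro x hx
      simp only [sat_or, sat_ex, sat_and, sat_neg, sat_eq, sat_mem, sat_fZ, sat_dApp, cons_zero,
        cons_one, cons_two, cons_three, cons_four, cons_five, cons_six]
      obtain ⟨d, hd⟩ := exists_isZ H w x
      by_cases h : ∃ y, IsApp E g d y ∧ E y b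
      · obtain ⟨y, hy, hyb⟩ := h
        refine ⟨y, ⟨hyb, Or.inl ⟨d, hd, hy⟩⟩, ?_⟩
        rintro y' ⟨_, ⟨d', hd', hy'⟩ | ⟨h2, _⟩⟩
        · rw [hd'.unique H hd] at hy'
          exact isFun_unique H hg hy' hy
        · exact absurd ⟨d, y, hd, hy, hyb⟩ h2
      · refine ⟨y0, ⟨hy0, Or.inr ⟨?_, rfl⟩⟩, ?_⟩
        · rintro ⟨d', y', hd', hy', hb'⟩
          rw [hd'.unique H hd] at hy'
          exact h ⟨y', hy', hb'⟩
        · rintro y' ⟨hy'b, ⟨d', hd', hy'⟩ | ⟨_, h2⟩⟩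
          · rw [hd'.unique H hd] at hy'
            exact absurd ⟨y', hy', hy'b⟩ h
          · exact h2)
  simp only [sat_or, sat_ex, sat_and, sat_neg, sat_eq, sat_mem, sat_fZ, sat_dApp, cons_zero,
    cons_one, cons_two, cons_three, cons_four, cons_five, cons_six] at hfa
  refine ⟨f, hf, ?_, ?_⟩
  · intro y hy
    obtain ⟨d, hd⟩ := hg' y (hb y hy)
    have hdD : E d D := (isFun_mem H hg hd).1
    obtain ⟨x, hx, hxa⟩ := exists_graph H k k
      (ffor (.fand (.fmem 0 2) (.feq 1 3)) (.fand (.fneg (.fmem 0 2)) (.feq 1 4)))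
      (cons d (cons z0 fun _ => z1)) (by
        intro u _
        simp only [sat_or, sat_and, sat_neg, sat_eq, sat_mem, cons_zero, cons_one, cons_two,
          cons_three, cons_four]
        by_cases hu : E u d
        · refine ⟨z0, ⟨h0, Or.inl ⟨hu, rfl⟩⟩, ?_⟩
          rintro y' ⟨_, ⟨_, h⟩ | ⟨h, _⟩⟩
          · exact h
          · exact absurd hu h
        · refine ⟨z1, ⟨h1, Or.inr ⟨hu, rfl⟩⟩, ?_⟩
          rintro y' ⟨_, ⟨h, _⟩ | ⟨_, h⟩⟩
          · exact absurd h hu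
          · exact h)
    simp only [sat_or, sat_and, sat_neg, sat_eq, sat_mem, cons_zero, cons_one, cons_two,
          cons_three, cons_four] at hxa
    refine ⟨x, (hfa x y).2 ⟨(hF x).2 hx, hy, Or.inl ⟨d, ?_, hd⟩⟩⟩
    intro u
    constructor
    · intro hu
      have h2 : E u w := hD d hdD u hu
      exact ⟨h2, z0, h0', (hxa u z0).2 ⟨hk w hw u h2, h0, Or.inl ⟨hu, rfl⟩⟩⟩
    · rintro ⟨_, e, he, hue⟩
      rcases ((hxa u e).1 hue).2.2 with ⟨h, _⟩ | ⟨_, rfl⟩
      · exact h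
      · exact absurd he h1'
  · intro x y hxy a _
    refine ⟨w, hw, fun x' y' hxy' hag => ?_⟩
    obtain ⟨_, hyb, hφ⟩ := (hfa x y).1 hxy
    obtain ⟨hx', hyb', hφ'⟩ := (hfa x' y').1 hxy'
    have h2 : y' = y := by
      rcases hφ with ⟨d, hd, hgd⟩ | ⟨hn, rfl⟩
      · rcases hφ' with ⟨d', hd', hgd'⟩ | ⟨hn', _⟩
        · rw [hd'.unique H (hd.congr hag)] at hgd'
          exact isFun_unique H hg hgd' hgd
        · exact absurd ⟨d, y, hd.congr hag, hgd, hyb⟩ hn'
      · rcases hφ' with ⟨d', hd', hgd'⟩ | ⟨_, h⟩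
        · obtain ⟨d, hd⟩ := exists_isZ H w x
          rw [hd'.unique H (hd.congr hag)] at hgd'
          exact absurd ⟨d, y', hd, hgd', hyb'⟩ hn
        · exact h
    subst h2
    exact fun u _ v => Iff.rfl

end Pool.Agent.Lib.MP_5c1789_lc
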