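import Pool.Agent.Lib.MP_5c1789_lc.Fml
import Pool.Agent.Lib.MP_40b13d_lc.Bv

/-!
# Tools for names of functions
-/

namespace Pool.Agent.Lib.MP_5c1789_lc

open Pool.Agent.Lib.Forcing Pool.Agent.Lib.MP_40b13d_lc

universe u

variable {P : Type u} [Preorder P]

theorem cl_congr {V : GenUlt P} {σ τ : Name P} {p : P} (hV : V.Has p) (h : EqF σ τ p) :
    V.cl σ = V.cl τ :=
  cl_eq.2 (GenUlt.Ev.imp hV fun _ hq => h.mono hq)

theorem mem_of {V : GenUlt P} {σ τ : Name P} {p : P} (hV : V.Has p) (h : MemF σ τ p) :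
    ModE V (V.cl σ) (V.cl τ) :=
  modE_cl.2 (GenUlt.Ev.imp hV fun _ hq => h.mono hq)

/-- what is true in a model is forced -/
theorem exists_forces {U : GenUlt P} {φ : Fml} {v : ℕ → Name P}
    (h : Sat (ModE U) φ (fun n => U.cl (v n))) :
    ∃ p, Forces φ v p := by
  rw [los] at h
  exact h.exists

/-- bounded quantification over the value of a name -/
theorem mod_bounded (U : GenUlt P) {ι : Type u} (nm : ι → Name P) {A : ι → P → Prop}
    (hA : ∀ i p q, A i p → q ≤ p → A i q) (φ : Fml) (v : ℕ → Name P) {q : P} (hq : U.Has q)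
    (h : ∀ i s, s ≤ q → A i s → ∀ V : GenUlt P, V.Has s →
      Sat (ModE V) φ (fun n => V.cl (cons (nm i) v n)))
    (x : Mod U) (hx : ModE U x (U.cl (cn nm A))) :
    Sat (ModE U) φ (cons x (fun n => U.cl (v n))) := by
  obtain ⟨σ, rfl⟩ := exists_cl x
  rw [← cl_cons, los]
  rw [modE_cl, ev_memF_cn hA] at hx
  refine GenUlt.Ev.imp2 hq hx ?_
  rintro p hp ⟨i, hi, h1⟩
  exact (forces_iff.2 fun V hV => h i p hp hi V hV).congr_cons h1.symm

theorem isFun_relN (U : GenUlt P) {ι : Type u}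
    (α β : ι → Name P) {A : ι → P → Prop} (hA : ∀ i p q, A i p → q ≤ p → A i q) (σ τ : Name P)
    {q : P} (hU : U.Has q)
    (h1 : ∀ r, r ≤ q → ∀ i, A i r → MemF (α i) σ r ∧ MemF (β i) τ r)
    (h2 : ∀ ρ, ∀ r, r ≤ q → MemF ρ σ r → ∃ s, s ≤ r ∧ ∃ i, A i s ∧ EqF ρ (α i) s)
    (h3 : ∀ i i', ∀ r, r ≤ q → A i r → A i' r → EqF (α i) (α i') r → EqF (β i) (β i') r) :
    IsFun (ModE U) (U.cl (relN α β A)) (U.cl σ) (U.cl τ) := by
  constructor
  · intro z hz
    obtain ⟨ζ, rfl⟩ := exists_cl z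
    rw [modE_cl, relN, ev_memF_cn hA] at hz
    have h4 : Sat (ModE U) (fbex 1 (fbex 3 (dOPair 2 1 0)))
        (fun i => U.cl (cons ζ (cons σ (fun _ => τ)) i)) := by
      rw [los]
      refine GenUlt.Ev.imp2 hU hz ?_
      rintro p hp ⟨i, h5, h6⟩
      rw [forces_iff]
      intro V hV
      simp only [sat_bex, sat_dOPair, cons_zero, cons_one, cons_two, cons_three]
      obtain ⟨h7, h8⟩ := h1 p hp i h5
      refine ⟨V.cl (α i), memF_iff_models.1 h7 V hV, V.cl (β i),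
        memF_iff_models.1 h8 V hV, ?_⟩
      rw [isOPair_iff]
      exact eqF_iff_models.1 h6 V hV
    simp only [sat_bex, sat_dOPair, cons_zero, cons_one, cons_two, cons_three] at h4
    obtain ⟨x, hx, y, hy, h4⟩ := h4
    exact ⟨x, y, hx, hy, h4⟩
  · intro x hx
    obtain ⟨ρ, rfl⟩ := exists_cl x
    rw [modE_cl] at hx
    apply existsUnique_of_exists_of_unique
    · have h4 : Sat (ModE U) (fbex 1 (dApp 3 1 0))
          (fun i => U.cl (cons ρ (cons τ (fun _ => relN α β A)) i)) := by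
        rw [los]
        refine GenUlt.Ev.imp2 hU hx ?_
        intro p hp h5
        apply Forces.dense
        intro r hr
        obtain ⟨s, hs, i, h6, h7⟩ := h2 ρ r (hr.trans hp) (h5.mono hr)
        refine ⟨s, hs, ?_⟩
        rw [forces_iff]
        intro V hV
        simp only [sat_bex, sat_dApp, cons_zero, cons_one, cons_two, cons_three]
        obtain ⟨-, h8⟩ := h1 s (hs.trans (hr.trans hp)) i h6
        refine ⟨V.cl (β i), memF_iff_models.1 h8 V hV, ?_⟩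
        rw [isApp_relN V α β hA]
        exact GenUlt.Ev.imp hV fun t ht => ⟨i, hA _ _ _ h6 ht, h7.mono ht, EqF.refl _ _⟩
      simp only [sat_bex, sat_dApp, cons_zero, cons_one, cons_two, cons_three] at h4
      exact h4
    · rintro y y' ⟨_, h4⟩ ⟨_, h5⟩
      obtain ⟨υ, rfl⟩ := exists_cl y
      obtain ⟨υ', rfl⟩ := exists_cl y'
      rw [isApp_relN U α β hA] at h4 h5
      rw [cl_eq]
      refine GenUlt.Ev.imp3 hU h4 h5 ?_
      rintro p hp ⟨i, h6, h7, h8⟩ ⟨i', h9, h10, h11⟩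
      exact (h8.trans (h3 i i' p hp h6 h9 (h7.symm.trans h10))).trans h11.symm

theorem onto_relN (U : GenUlt P) {ι : Type u}
    (α β : ι → Name P) {A : ι → P → Prop} (hA : ∀ i p q, A i p → q ≤ p → A i q) (τ : Name P)
    {q : P} (hU : U.Has q)
    (h4 : ∀ ρ, ∀ r, r ≤ q → MemF ρ τ r → ∃ s, s ≤ r ∧ ∃ i, A i s ∧ EqF ρ (β i) s) :
    ∀ y, ModE U y (U.cl τ) → ∃ x, IsApp (ModE U) (U.cl (relN α β A)) x y := by
  intro y hy
  obtain ⟨υ, rfl⟩ := exists_cl y
  rw [modE_cl] at hy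
  have h5 : Sat (ModE U) (fex (dApp 2 0 1))
      (fun i => U.cl ((cons υ fun _ => relN α β A : ℕ → Name P) i)) := by
    rw [los]
    refine GenUlt.Ev.imp2 hU hy ?_
    intro p hp h5
    apply Forces.dense
    intro r hr
    obtain ⟨s, hs, i, h6, h7⟩ := h4 υ r (hr.trans hp) (h5.mono hr)
    refine ⟨s, hs, ?_⟩
    rw [forces_iff]
    intro V hV
    simp only [sat_ex, sat_dApp, cons_zero, cons_one, cons_two]
    refine ⟨V.cl (α i), ?_⟩
    rw [isApp_relN V α β hA]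
    exact GenUlt.Ev.imp hV fun t ht => ⟨i, hA _ _ _ h6 ht, EqF.refl _ _, h7.mono ht⟩
  simp only [sat_ex, sat_dApp, cons_zero, cons_one, cons_two] at h5
  exact h5

theorem hasSurj_relN (U : GenUlt P) {ι : Type u}
    (α β : ι → Name P) {A : ι → P → Prop} (hA : ∀ i p q, A i p → q ≤ p → A i q) (σ τ : Name P)
    {q : P} (hU : U.Has q)
    (h1 : ∀ r, r ≤ q → ∀ i, A i r → MemF (α i) σ r ∧ MemF (β i) τ r)
    (h2 : ∀ ρ, ∀ r, r ≤ q → MemF ρ σ r → ∃ s, s ≤ r ∧ ∃ i, A i s ∧ EqF ρ (α i) s)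
    (h3 : ∀ i i', ∀ r, r ≤ q → A i r → A i' r → EqF (α i) (α i') r → EqF (β i) (β i') r)
    (h4 : ∀ ρ, ∀ r, r ≤ q → MemF ρ τ r → ∃ s, s ≤ r ∧ ∃ i, A i s ∧ EqF ρ (β i) s) :
    HasSurj (ModE U) (U.cl σ) (U.cl τ) :=
  ⟨_, isFun_relN U α β hA σ τ hU h1 h2 h3, onto_relN U α β hA τ hU h4⟩

/-! ### functions in models of ZFC -/

section Model

variable {M : Type*} {E : M → M → Prop}

theorem isFun_mem (H : IsZFC M E) {f a b x y : M} (h : IsFun E f a b) (hxy : IsApp E f x y) :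
    E x a ∧ E y b := by
  obtain ⟨z, hz, hp⟩ := hxy
  obtain ⟨x', y', hx, hy, hp'⟩ := h.1 z hz
  obtain ⟨rfl, rfl⟩ := hp.inj H hp'
  exact ⟨hx, hy⟩

theorem isFun_unique (H : IsZFC M E) {f a b x y y' : M} (h : IsFun E f a b)
    (hxy : IsApp E f x y) (hxy' : IsApp E f x y') : y = y' := by
  obtain ⟨hx, hy⟩ := isFun_mem H h hxy
  obtain ⟨_, hy'⟩ := isFun_mem H h hxy'
  obtain ⟨z, _, hz⟩ := h.2 x hx
  rw [hz y ⟨hy, hxy⟩, hz y' ⟨hy', hxy'⟩]

/-- the domain is determined -/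
theorem isFun_dom (H : IsZFC M E) {f a a' b b' : M} (h : IsFun E f a b) (h' : IsFun E f a' b') :
    a = a' := by
  apply H.extensionality
  intro x
  constructor
  · intro hx
    obtain ⟨y, ⟨_, hy⟩, _⟩ := h.2 x hx
    exact (isFun_mem H h' hy).1
  · intro hx
    obtain ⟨y, ⟨_, hy⟩, _⟩ := h'.2 x hx
    exact (isFun_mem H h hy).1

/-- functions with the same values are equal -/
theorem isFun_ext (H : IsZFC M E) {f g a a' b b' : M} (h : IsFun E f a b) (h' : IsFun E g a' b')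
    (hfg : ∀ x y, IsApp E f x y ↔ IsApp E g x y) : f = g := by
  apply H.extensionality
  intro z
  constructor
  · intro hz
    obtain ⟨x, y, _, _, hp⟩ := h.1 z hz
    obtain ⟨z', hz', hp'⟩ := (hfg x y).1 ⟨z, hz, hp⟩
    rwa [hp.unique H hp']
  · intro hz
    obtain ⟨x, y, _, _, hp⟩ := h'.1 z hz
    obtain ⟨z', hz', hp'⟩ := (hfg x y).2 ⟨z, hz, hp⟩
    rwa [hp.unique H hp']

end Model

end Pool.Agent.Lib.MP_5c1789_lc
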