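import Pool.Agent.Lib.MP_40b13d_lc.ZDefs

/-!
# Kurepa trees and continuous images inside a structure `(M, E)` for the language of set theory

`ZFC`, `IsSub`, `IsFun`, `IsApp`, `HasSurj`, `IsOrdinal` come from `Pool.Agent.Lib.Forcing.Defs`,
`IsOmega` from `Pool.Agent.Lib.MP_40b13d_lc.ZDefs`.
-/

namespace Pool.Agent.Lib.MP_5c1789_lc

open Pool.Agent.Lib.Forcing Pool.Agent.Lib.MP_40b13d_lc

variable {M : Type*} (E : M → M → Prop)

/-- `k` is the least nonempty ordinal which is not the image of `w` under a function (`k = w⁺` for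
an infinite cardinal `w`): it is nonempty, all its nonempty elements are images of `w`, and `k` is
not. -/
def IsNextCard (w k : M) : Prop :=
  IsOrdinal E k ∧ (∃ x, E x k) ∧ (∀ x, E x k → (∃ y, E y x) → HasSurj E w x) ∧ ¬ HasSurj E w k

/-- `T` is a subtree of `^{<k}k`: a set of functions from elements of `k` to `k` which is closed
under restriction to elements of `k`. -/
def IsSubtree (k T : M) : Prop :=
  (∀ t, E t T → ∃ a, E a k ∧ IsFun E t a k) ∧
  ∀ t, E t T → ∀ a s, E a k → IsFun E s a k → IsSub E s t → E s T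

/-- `l` is the level `T(a)`, the set of the functions in `T` with domain `a`. -/
def IsLevel (k T a l : M) : Prop := ∀ t, E t l ↔ E t T ∧ IsFun E t a k

/-- `b` is the branch set `[T]`: the set of the functions from `k` to `k` all of whose
restrictions to elements of `k` are in `T`. -/
def IsBranchSet (k T b : M) : Prop :=
  ∀ x, E x b ↔ IsFun E x k k ∧ ∀ a s, E a k → IsFun E s a k → IsSub E s x → E s T

/-- `F` is the set `^k k` of all functions from `k` to `k`. -/
def IsFunSpace (k F : M) : Prop := ∀ x, E x F ↔ IsFun E x k k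

/-- With `w = ℵ₁`, `k = ℵ₂`: `T` is a subtree of `^{<k}k`, every nonempty level is the image of
`w`, and the branch set is nonempty and is not the image of `k` (so it has at least `ℵ₃`
elements). -/
def IsKurepa (w k T : M) : Prop :=
  IsSubtree E k T ∧
  (∀ a l, E a k → IsLevel E k T a l → (∃ t, E t l) → HasSurj E w l) ∧
  ∀ b, IsBranchSet E k T b → (∃ x, E x b) ∧ ¬ HasSurj E k b

/-- the functions `x` and `y` agree on the set `c` -/
def AgreeOn (c x y : M) : Prop := ∀ u, E u c → ∀ v, IsApp E x u v ↔ IsApp E y u v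

/-- `f` is a continuous function from `F = ^k k` onto `b ⊆ ^k k` (bounded topology: the sets
`{x' : x' agrees with x on c}`, `c ∈ k`, are a neighbourhood base at `x`). -/
def IsContSurj (k F b f : M) : Prop :=
  IsFun E f F b ∧ (∀ y, E y b → ∃ x, IsApp E f x y) ∧
  ∀ x y, IsApp E f x y → ∀ a, E a k → ∃ c, E c k ∧
    ∀ x' y', IsApp E f x' y' → AgreeOn E c x x' → AgreeOn E a y y'

/-- There are `ℵ₂`-Kurepa trees, and the branch set of every `ℵ₂`-Kurepa tree is a continuous
image of `^{ω₂}ω₂`, in `(M, E)`.  Here `o = ω`, `w = ℵ₁`, `k = ℵ₂`. -/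
def KurepaImages : Prop :=
  ∃ o w k, IsOmega E o ∧ IsNextCard E o w ∧ IsNextCard E w k ∧ (∃ T, IsKurepa E w k T) ∧
    ∀ T, IsKurepa E w k T → ∀ F b, IsFunSpace E k F → IsBranchSet E k T b →
      ∃ f, IsContSurj E k F b f

end Pool.Agent.Lib.MP_5c1789_lc
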