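import Pool.Agent.Lib.MP_40b13d_lc.ZFml
import Pool.Agent.Lib.MP_5c1789_lc.Defs

/-!
# Formulas for the notions of `Defs`
-/

set_option linter.unusedSimpArgs false

namespace Pool.Agent.Lib.MP_5c1789_lc

open Pool.Agent.Lib.Forcing Pool.Agent.Lib.MP_40b13d_lc

variable {M : Type*} {E : M → M → Prop} {v : ℕ → M}

def fNextCard (w k : ℕ) : Fml :=
  .fand (fOrdinal k) (.fand (fex (.fmem 0 (k + 1)))
    (.fand (fball k (fimp (fex (.fmem 0 1)) (fSurj (w + 1) 0))) (.fneg (fSurj w k))))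

@[simp] theorem sat_fNextCard {w k : ℕ} :
    Sat E (fNextCard w k) v ↔ IsNextCard E (v w) (v k) := by
  simp only [fNextCard, IsNextCard, sat_and, sat_neg, sat_fOrdinal, sat_ball, sat_imp, sat_ex,
    sat_mem, sat_fSurj, cons_zero, cons_succ, cons_one]

def fSubtree (k T : ℕ) : Fml :=
  .fand (fball T (fex (.fand (.fmem 0 (k + 2)) (dFun 1 0 (k + 2)))))
    (fball T (.fall (.fall (fimp (.fmem 1 (k + 3)) (fimp (dFun 0 1 (k + 3))
      (fimp (dSub 0 2) (.fmem 0 (T + 3))))))))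

@[simp] theorem sat_fSubtree {k T : ℕ} :
    Sat E (fSubtree k T) v ↔ IsSubtree E (v k) (v T) := by
  simp only [fSubtree, IsSubtree, sat_and, sat_ball, sat_all, sat_imp, sat_ex,
    sat_mem, sat_dFun, sat_dSub, cons_zero, cons_succ, cons_one, cons_two]

def fLevel (k T a l : ℕ) : Fml :=
  .fall (fiff (.fmem 0 (l + 1)) (.fand (.fmem 0 (T + 1)) (dFun 0 (a + 1) (k + 1))))

@[simp] theorem sat_fLevel {k T a l : ℕ} :
    Sat E (fLevel k T a l) v ↔ IsLevel E (v k) (v T) (v a) (v l) := by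
  simp only [fLevel, IsLevel, sat_and, sat_all, sat_iff, sat_mem, sat_dFun, cons_zero, cons_succ]

def fBranchSet (k T b : ℕ) : Fml :=
  .fall (fiff (.fmem 0 (b + 1)) (.fand (dFun 0 (k + 1) (k + 1))
    (.fall (.fall (fimp (.fmem 1 (k + 3)) (fimp (dFun 0 1 (k + 3))
      (fimp (dSub 0 2) (.fmem 0 (T + 3)))))))))

@[simp] theorem sat_fBranchSet {k T b : ℕ} :
    Sat E (fBranchSet k T b) v ↔ IsBranchSet E (v k) (v T) (v b) := by
  simp only [fBranchSet, IsBranchSet, sat_and, sat_all, sat_iff, sat_imp, sat_mem, sat_dFun,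
    sat_dSub, cons_zero, cons_succ, cons_one, cons_two]

def fFunSpace (k F : ℕ) : Fml := .fall (fiff (.fmem 0 (F + 1)) (dFun 0 (k + 1) (k + 1)))

@[simp] theorem sat_fFunSpace {k F : ℕ} :
    Sat E (fFunSpace k F) v ↔ IsFunSpace E (v k) (v F) := by
  simp only [fFunSpace, IsFunSpace, sat_all, sat_iff, sat_mem, sat_dFun, cons_zero, cons_succ]

def fKurepa (w k T : ℕ) : Fml :=
  .fand (fSubtree k T) (.fand
    (.fall (.fall (fimp (.fmem 1 (k + 2)) (fimp (fLevel (k + 2) (T + 2) 1 0)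
      (fimp (fex (.fmem 0 1)) (fSurj (w + 2) 0))))))
    (.fall (fimp (fBranchSet (k + 1) (T + 1) 0) (.fand (fex (.fmem 0 1))
      (.fneg (fSurj (k + 1) 0))))))

@[simp] theorem sat_fKurepa {w k T : ℕ} :
    Sat E (fKurepa w k T) v ↔ IsKurepa E (v w) (v k) (v T) := by
  simp only [fKurepa, IsKurepa, sat_and, sat_all, sat_imp, sat_ex, sat_neg, sat_mem,
    sat_fSubtree, sat_fLevel, sat_fBranchSet, sat_fSurj, cons_zero, cons_succ, cons_one, cons_two]

def fAgreeOn (c x y : ℕ) : Fml :=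
  fball c (.fall (fiff (dApp (x + 2) 1 0) (dApp (y + 2) 1 0)))

@[simp] theorem sat_fAgreeOn {c x y : ℕ} :
    Sat E (fAgreeOn c x y) v ↔ AgreeOn E (v c) (v x) (v y) := by
  simp only [fAgreeOn, AgreeOn, sat_ball, sat_all, sat_iff, sat_dApp, cons_zero, cons_succ,
    cons_one]

def fContSurj (k F b f : ℕ) : Fml :=
  .fand (dFun f F b) (.fand (fball b (fex (dApp (f + 2) 0 1)))
    (.fall (.fall (fimp (dApp (f + 2) 1 0) (fball (k + 2) (fex (.fand (.fmem 0 (k + 4))
      (.fall (.fall (fimp (dApp (f + 6) 1 0) (fimp (fAgreeOn 2 5 1) (fAgreeOn 3 4 0))))))))))))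

@[simp] theorem sat_fContSurj {k F b f : ℕ} :
    Sat E (fContSurj k F b f) v ↔ IsContSurj E (v k) (v F) (v b) (v f) := by
  simp only [fContSurj, IsContSurj, sat_and, sat_ball, sat_all, sat_imp, sat_ex, sat_mem,
    sat_dFun, sat_dApp, sat_fAgreeOn, cons_zero, cons_succ, cons_one, cons_two, cons_three,
    cons_four]

def fKI : Fml :=
  fex (fex (fex (.fand (fOmega 2) (.fand (fNextCard 2 1) (.fand (fNextCard 1 0)
    (.fand (fex (fKurepa 2 1 0)) (.fall (fimp (fKurepa 2 1 0) (.fall (.fall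
      (fimp (fFunSpace 3 1) (fimp (fBranchSet 3 2 0) (fex (fContSurj 4 2 1 0)))))))))))))) 

theorem sat_fKI : Sat E fKI v ↔ KurepaImages E := by
  simp only [fKI, KurepaImages, sat_and, sat_ex, sat_all, sat_imp, sat_fOmega, sat_fNextCard,
    sat_fKurepa, sat_fFunSpace, sat_fBranchSet, sat_fContSurj, cons_zero, cons_succ, cons_one,
    cons_two, cons_three, cons_four]

/-- Transfer to a countable elementary substructure. -/
theorem exists_countable (k : M) (hZ : IsZFC M E) (hC : KurepaImages E) :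
    ∃ (N : Type) (F : N → N → Prop), Countable N ∧ IsZFC N F ∧ KurepaImages F := by
  obtain ⟨N, F, k', j, hc, -, hj⟩ := exists_countable_elementary E k
  have hj' : Elem F E j := hj
  refine ⟨N, F, hc, hj'.isZFC k' hZ, ?_⟩
  rw [← sat_fKI (v := fun _ => k'), hj', sat_fKI]
  exact hC

end Pool.Agent.Lib.MP_5c1789_lc
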