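import Pool.Agent.Lib.MP_5c1789_lc.Nice
import Pool.Agent.Lib.MP_5c1789_lc.Cont

/-!
# The model
-/

namespace Pool.Agent.Lib.MP_5c1789_lc

open Pool.Agent.Lib.Forcing Pool.Agent.Lib.MP_40b13d_lc

theorem kurepaImages (U : GenUlt Pm) {q : Pm} (hq : U.Has q) : KurepaImages (ModE U) := by
  refine ⟨U.cl omegaN, U.cl (chk w1), U.cl w2N, mod_omega U, next_w1 U hq, next_w2 U hq,
    exists_kurepa U hq, ?_⟩
  intro T hT F b hF hb
  obtain ⟨D, g, hD, hg⟩ := exists_enum U hq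
  obtain ⟨hg1, hg2⟩ := hg F hF
  refine exists_cont (mod_isZFC U) (z0 := U.cl (chk 0)) (z1 := U.cl (chk 1))
    ((mod_chS_mem U).2 (Set.mem_univ _)) (mod_ordinal_w2N U q hq).1
    ((mod_chS_mem U).2 (Set.mem_univ _)) ?_ ((mod_chS_mem U).2 (Set.mem_univ _)) ?_
    hD hF hg1 hg2 (fun y hy => (hF y).2 ((hb y).1 hy).1) (hT.2.2 b hb).1
  · intro z hz
    obtain ⟨ζ, rfl⟩ := exists_cl z
    rw [modE_cl, ev_memF_chk] at hz
    obtain ⟨_, x, hx, _⟩ := hz.exists
    exact absurd hx (by simp)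
  · intro h
    exact h _ ((mod_chk_mem U).2 zero_lt_one)

theorem exists_model : ∃ (M : Type) (E : M → M → Prop), Countable M ∧ IsZFC M E ∧
    KurepaImages E := by
  obtain ⟨q⟩ : Nonempty Pm := inferInstance
  obtain ⟨U, hU⟩ := exists_genUlt q
  exact exists_countable (U.cl omegaN) (mod_isZFC U) (kurepaImages U hU)

end Pool.Agent.Lib.MP_5c1789_lc
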