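import Pool.Agent.Lib.MP_5c1789_lc.Tree

/-!
# All functions on the second uncountable cardinal are enumerated by subsets of the first one
-/

set_option linter.unusedSimpArgs false

open Set Cardinal

namespace Pool.Agent.Lib.MP_5c1789_lc

open Pool.Agent.Lib.Forcing Pool.Agent.Lib.MP_40b13d_lc

/-! ### nice names -/

/-- the nice name with the code `R` -/
noncomputable def niceN (R : Codes) : Name Pm :=
  relN (ι := Ordinal.{0} × Ordinal.{0}) (fun t => chk t.1) (fun t => chk t.2)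
    (fun t p => ∃ r ∈ (R t.1 t.2).1, p ≤ r)

theorem niceN_mono (R : Codes) (t : Ordinal.{0} × Ordinal.{0}) (p q : Pm)
    (h : ∃ r ∈ (R t.1 t.2).1, p ≤ r) (hq : q ≤ p) : ∃ r ∈ (R t.1 t.2).1, q ≤ r := by
  obtain ⟨r, hr, h⟩ := h
  exact ⟨r, hr, hq.trans h⟩

theorem isFun_eq_of_sub {M : Type*} {E : M → M → Prop} (H : IsZFC M E) {f g a b : M}
    (hf : IsFun E f a b) (hg : IsFun E g a b) (h : IsSub E f g) : f = g := by
  refine isFun_ext H hf hg fun x y => ⟨?_, ?_⟩
  · rintro ⟨z, hz, hz'⟩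
    exact ⟨z, h z hz, hz'⟩
  · intro hxy
    obtain ⟨y', ⟨_, z, hz, hz'⟩, _⟩ := hf.2 x (isFun_mem H hg hxy).1
    rw [isFun_unique H hg hxy ⟨z, h z hz, hz'⟩]
    exact ⟨z, hz, hz'⟩

theorem exists_nice {ρ : Name Pm} {r : Pm}
    (h : ∀ V : GenUlt Pm, V.Has r → IsFun (ModE V) (V.cl ρ) (V.cl w2N) (V.cl w2N)) :
    ∃ R : Codes, EqF ρ (niceN R) r := by
  have h1 := fun α β : Ordinal.{0} =>
    exists_max_antichain fun p : Pm => p ≤ r ∧ MemF (opN (chk α) (chk β)) ρ p
  choose W hW1 hW2 hW3 using h1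
  have hs : ∀ α β, Small.{0} (W α β) := fun α β => by
    apply Cnd.cc
    rintro p hp q hq ⟨t, h1, h2⟩
    exact hW2 α β p hp q hq t h1 h2
  obtain ⟨R, hR⟩ : ∃ R : Codes, ∀ α β, (R α β).1 = W α β :=
    ⟨fun α β => ⟨W α β, hs α β⟩, fun _ _ => rfl⟩
  refine ⟨R, ?_⟩
  rw [eqF_iff_models]
  intro V hV
  symm
  refine isFun_eq_of_sub (mod_isZFC V) ?_ (h V hV) ?_
  · refine isFun_relN V _ _ (niceN_mono R) w2N w2N hV ?_ ?_ ?_
    · intro s _ t _
      exact ⟨chk_mem_chS (mem_univ _) s, chk_mem_chS (mem_univ _) s⟩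
    · intro ρ' s hs hρ
      obtain ⟨t1, ht1, x, _, h1⟩ := memF_chS.1 hρ s le_rfl
      obtain ⟨t2, ht2, β, _, h2⟩ := decide_value (γ := ρ) (ν := chk x) (s := Set.univ) (r := t1)
        (fun W hW => by
          obtain ⟨y, ⟨hy, hy'⟩, _⟩ := (h W (hW.mono (ht1.trans hs))).2 (W.cl (chk x))
            ((mod_chS_mem W).2 (mem_univ _))
          exact ⟨y, hy, hy'⟩)
      obtain ⟨w, hw, t3, h3, h4⟩ := hW3 x β t2 ⟨ht2.trans (ht1.trans hs), h2⟩
      exact ⟨t3, h3.trans (ht2.trans ht1), (x, β), ⟨w, hR x β ▸ hw, h4⟩, h1.mono (h3.trans ht2)⟩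
    · rintro ⟨α, β⟩ ⟨α', β'⟩ s hs ⟨w, hw, h1⟩ ⟨w', hw', h2⟩ h3
      rw [hR] at hw hw'
      have h4 : α = α' := chk_inj h3
      subst h4
      obtain ⟨V, hV⟩ := exists_genUlt s
      have h5 := app_of ((hW1 _ _ w hw).2.mono h1) hV
      have h6 := app_of ((hW1 _ _ w' hw').2.mono h2) hV
      have h7 : β = β' :=
        (mod_chk_eq V).1 (isFun_unique (mod_isZFC V) (h V (hV.mono hs)) h5 h6)
      show EqF (chk β) (chk β') s
      rw [h7]
      exact EqF.refl _ _
  · intro z hz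
    obtain ⟨ζ, rfl⟩ := exists_cl z
    rw [modE_cl, niceN, relN, ev_memF_cn (niceN_mono R)] at hz
    rw [modE_cl]
    refine GenUlt.Ev.imp hz ?_
    rintro p ⟨⟨α, β⟩, ⟨w, hw, h1⟩, h2⟩
    rw [hR] at hw
    exact ((hW1 _ _ w hw).2.mono h1).congr_left h2.symm

/-! ### the Cohen subsets -/

/-- the Cohen subset of `ω₁` with the index `ξ` -/
noncomputable def cohN (ξ : Set Ordinal.{0}) : Name Pm :=
  cn (ι := Iio w1) (fun x => chk x.1) (fun x p => p.f (Sum.inr ξ, x) = some {0})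

theorem cohN_mono (ξ : Set Ordinal.{0}) (x : Iio w1) (p q : Pm)
    (h : p.f (Sum.inr ξ, x) = some {0}) (hq : q ≤ p) : q.f (Sum.inr ξ, x) = some {0} :=
  hq _ _ h

theorem cohN_sub (V : GenUlt Pm) (ξ : Set Ordinal.{0}) :
    IsSub (ModE V) (V.cl (cohN ξ)) (V.cl (chk w1)) := by
  intro z hz
  obtain ⟨ζ, rfl⟩ := exists_cl z
  rw [modE_cl, cohN, ev_memF_cn (cohN_mono ξ)] at hz
  rw [modE_cl, ev_memF_chk]
  exact GenUlt.Ev.imp hz fun p ⟨x, _, h⟩ => ⟨x.1, x.2, h⟩

theorem exists_free (r : Pm) (ξ ξ' : Set Ordinal.{0}) : ∃ x : Iio w1,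
    r.f (Sum.inr ξ, x) = none ∧ r.f (Sum.inr ξ', x) = none := by
  by_contra hcon
  push Not at hcon
  apply w1_uncountable
  have h1 : (Iio w1 : Set Ordinal.{0}) ⊆
      (fun j : Jx => j.2.1) '' {j | r.f j ≠ none} := by
    intro x hx
    by_cases h : r.f (Sum.inr ξ, ⟨x, hx⟩) = none
    · exact ⟨_, hcon ⟨x, hx⟩ h, rfl⟩
    · exact ⟨_, h, rfl⟩
  exact (r.ct.image _).mono h1

theorem exists_ext' {J : Type 1} {β : J → Ordinal.{0}} (p : Cnd J β) {j : J} (hj : p.f j = none)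
    {S : Set Ordinal.{0}} (hS : S ⊆ Iio (β j)) :
    ∃ q : Cnd J β, q ≤ p ∧ q.f j = some S ∧ ∀ i, i ≠ j → q.f i = p.f i := by
  classical
  refine ⟨⟨fun i => if i = j then some S else p.f i, ?_, ?_⟩, ?_, by simp, ?_⟩
  · refine (p.ct.insert j).mono ?_
    intro i hi
    by_cases h : i = j
    · exact Or.inl h
    · right
      simpa [h] using hi
  · intro i S' h
    by_cases h1 : i = j
    · subst h1
      simp only [if_true, Option.some.injEq] at h
      rw [← h]; exact hS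
    · simp only [h1, if_false] at h
      exact p.bd i S' h
  · intro i S' h
    have h1 : i ≠ j := by
      rintro rfl
      rw [hj] at h
      exact absurd h (by simp)
    simpa [h1] using h
  · intro i hi
    simp [hi]

theorem cohN_inj {ξ ξ' : Set Ordinal.{0}} {r : Pm} (h : EqF (cohN ξ) (cohN ξ') r) : ξ = ξ' := by
  by_contra hne
  obtain ⟨x, hx, hx'⟩ := exists_free r ξ ξ'
  obtain ⟨s, hs, h1, h2⟩ := exists_ext' r hx (S := {0}) (by
    show {0} ⊆ Iio (1 : Ordinal.{0})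
    simp)
  have h2 : ∃ t : Pm, t ≤ s ∧ t.f (Sum.inr ξ', x) = some ∅ :=
    s.exists_ext (by
      rw [h2 _ (by simp [Ne.symm hne])]
      exact hx') (empty_subset _)
  obtain ⟨t, ht, h3⟩ := h2
  have h4 : MemF (chk x.1) (cohN ξ) t :=
    memF_cn_of (A := fun (x : Iio w1) (p : Pm) => p.f (Sum.inr ξ, x) = some {0}) x
      (ht _ _ h1)
  have h5 := h4.congr_right (h.mono (ht.trans hs))
  rw [cohN, memF_cn (cohN_mono ξ')] at h5
  obtain ⟨u, hu, y, hy, h6⟩ := h5 t le_rfl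
  have h7 : x = y := Subtype.ext (chk_inj h6)
  subst h7
  rw [hu _ _ h3] at hy
  simp at hy

/-! ### the enumeration -/

theorem exists_enum (U : GenUlt Pm) {q : Pm} (hq : U.Has q) : ∃ D g,
    (∀ d, ModE U d D → IsSub (ModE U) d (U.cl (chk w1))) ∧
    ∀ F, IsFunSpace (ModE U) (U.cl w2N) F →
      IsFun (ModE U) g D F ∧ ∀ y, ModE U y F → ∃ x, IsApp (ModE U) g x y := by
  obtain ⟨e, he⟩ := exists_code
  obtain ⟨A, hA⟩ : ∃ A : Set Ordinal.{0} → Pm → Prop, ∀ ξ p, A ξ p ↔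
      ∀ V : GenUlt Pm, V.Has p →
        IsFun (ModE V) (V.cl (niceN (e ξ))) (V.cl w2N) (V.cl w2N) :=
    ⟨_, fun _ _ => Iff.rfl⟩
  have hm : ∀ ξ p q, A ξ p → q ≤ p → A ξ q := fun ξ p q h hq => by
    rw [hA] at h ⊢
    exact fun V hV => h V (hV.mono hq)
  refine ⟨U.cl (cn (fun ξ => cohN ξ) A), U.cl (relN (fun ξ => cohN ξ) (fun ξ => niceN (e ξ)) A),
    ?_, ?_⟩
  · intro d hd
    have h := mod_bounded U (fun ξ => cohN ξ) hm (dSub 0 1) (fun _ => chk w1) hq
      (fun ξ r _ _ V _ => by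
        simp only [sat_dSub, cons_zero, cons_one]
        exact cohN_sub V ξ) d hd
    simpa only [sat_dSub, cons_zero, cons_one] using h
  · intro F hF
    obtain ⟨φ, rfl⟩ := exists_cl F
    have h := los_imp U (φ := fFunSpace 1 0)
      (ψ := .fand (dFun 2 3 0) (fball 0 (fex (dApp 4 0 1))))
      (v := cons φ (cons w2N (cons (relN (fun ξ => cohN ξ) (fun ξ => niceN (e ξ)) A)
        fun _ => cn (fun ξ => cohN ξ) A))) hq
      (fun p _ hp V hV => by
        have hS : ∀ W : GenUlt Pm, W.Has p → IsFunSpace (ModE W) (W.cl w2N) (W.cl φ) := by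
          intro W hW
          have := forces_iff.1 hp W hW
          simpa only [sat_fFunSpace, cons_zero, cons_one] using this
        simp only [sat_and, sat_dFun, sat_ball, sat_ex, sat_dApp, cons_zero, cons_one, cons_two,
          cons_three, cons_four]
        constructor
        · refine isFun_relN V _ _ hm _ _ hV ?_ ?_ ?_
          · intro r hr ξ hξ
            refine ⟨memF_cn_of ξ hξ, memF_iff_models.2 fun W hW => ?_⟩
            exact (hS W (hW.mono hr) _).2 ((hA ξ r).1 hξ W hW)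
          · intro ρ r _ h
            exact (memF_cn hm).1 h r le_rfl
          · intro ξ ξ' r _ _ _ h
            rw [cohN_inj h]
            exact EqF.refl _ _
        · refine onto_relN V _ _ hm φ hV ?_
          intro ρ r hr h
          have h1 : ∀ W : GenUlt Pm, W.Has r →
              IsFun (ModE W) (W.cl ρ) (W.cl w2N) (W.cl w2N) := fun W hW =>
            (hS W (hW.mono hr) _).1 (memF_iff_models.1 h W hW)
          obtain ⟨R, hR⟩ := exists_nice h1
          obtain ⟨ξ, rfl⟩ := he R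
          refine ⟨r, le_rfl, ξ, (hA ξ r).2 fun W hW => ?_, hR⟩
          rw [← cl_congr hW hR]
          exact h1 W hW)
      (by simpa only [sat_fFunSpace, cons_zero, cons_one] using hF)
    simpa only [sat_and, sat_dFun, sat_ball, sat_ex, sat_dApp, cons_zero, cons_one, cons_two,
          cons_three, cons_four] using h

end Pool.Agent.Lib.MP_5c1789_lc
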