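import Pool.Agent.Lib.MP_5c1789_lc.Core
import Pool.Agent.Lib.MP_5c1789_lc.Card

/-!
# The first two uncountable cardinals of the extension
-/

set_option linter.unusedSimpArgs false

open Set Cardinal

namespace Pool.Agent.Lib.MP_5c1789_lc

open Pool.Agent.Lib.Forcing Pool.Agent.Lib.MP_40b13d_lc

section General

variable {P : Type 1} [Preorder P]

/-- the canonical name of a set of ordinals -/
noncomputable def chS (s : Set Ordinal.{0}) : Name P :=
  cn (ι := s) (fun x => chk x.1) (fun _ _ => True)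

theorem chk_chS (o : Ordinal.{0}) : (chk o : Name P) = chS (Iio o) := chk_eq o

theorem memF_chS {ρ : Name P} {s : Set Ordinal.{0}} {p : P} : MemF ρ (chS s) p ↔
    ∀ r, r ≤ p → ∃ t, t ≤ r ∧ ∃ x ∈ s, EqF ρ (chk x) t := by
  rw [chS, memF_cn (fun _ _ _ h _ => h)]
  refine forall₂_congr fun r _ => exists_congr fun s => and_congr Iff.rfl ?_
  constructor
  · rintro ⟨x, _, h⟩; exact ⟨x.1, x.2, h⟩
  · rintro ⟨x, hx, h⟩; exact ⟨⟨x, hx⟩, trivial, h⟩

theorem chk_mem_chS {x : Ordinal.{0}} {s : Set Ordinal.{0}} (h : x ∈ s) (p : P) :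
    MemF (chk x) (chS s) p :=
  memF_chS.2 fun r _ => ⟨r, le_rfl, x, h, EqF.refl _ _⟩

theorem chk_mem_chS_iff {x : Ordinal.{0}} {s : Set Ordinal.{0}} {p : P} :
    MemF (chk x) (chS s) p ↔ x ∈ s := by
  constructor
  · intro h
    obtain ⟨t, _, y, hy, h1⟩ := memF_chS.1 h p le_rfl
    rw [chk_inj h1]; exact hy
  · intro h; exact chk_mem_chS h p

theorem mod_chS_mem (U : GenUlt P) {a : Ordinal.{0}} {s : Set Ordinal.{0}} :
    ModE U (U.cl (chk a)) (U.cl (chS s)) ↔ a ∈ s := by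
  rw [modE_cl]
  constructor
  · intro h
    obtain ⟨p, hp⟩ := h.exists
    exact chk_mem_chS_iff.1 hp
  · intro h
    exact GenUlt.ev_true fun p => chk_mem_chS h p

/-- bounded quantification over a set of ordinals -/
theorem mod_bounded_chS (U : GenUlt P) (s : Set Ordinal.{0}) (φ : Fml) (v : ℕ → Name P) {q : P}
    (hq : U.Has q)
    (h : ∀ i ∈ s, ∀ r, r ≤ q → ∀ V : GenUlt P, V.Has r →
      Sat (ModE V) φ (fun n => V.cl (cons (chk i) v n)))
    (x : Mod U) (hx : ModE U x (U.cl (chS s))) :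
    Sat (ModE U) φ (cons x (fun n => U.cl (v n))) :=
  mod_bounded U _ (fun _ _ _ h _ => h) φ v hq (fun i r hr _ V hV => h i.1 i.2 r hr V hV) x hx

/-- the name of the set of all the ordinals of the first universe -/
noncomputable def w2N : Name P := chS univ

theorem mod_ordinal_w2N (U : GenUlt P) (q : P) (hq : U.Has q) :
    IsOrdinal (ModE U) (U.cl w2N) := by
  have h : ∀ x, ModE U x (U.cl w2N) → IsSub (ModE U) x (U.cl w2N) ∧ IsTrans (ModE U) x := by
    intro x hx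
    have h1 := mod_bounded_chS U univ (.fand (dSub 0 1) (dTrans 0)) (fun _ => w2N) hq
      (fun i _ r _ V hV => by
        simp only [sat_and, sat_dSub, sat_dTrans, cons_zero, cons_one]
        refine ⟨?_, mod_trans_chk V i⟩
        intro z hz
        obtain ⟨ζ, rfl⟩ := exists_cl z
        rw [modE_cl] at hz ⊢
        refine hz.imp fun p hp => ?_
        rw [memF_chk] at hp
        rw [w2N, memF_chS]
        intro r hr
        obtain ⟨t, ht, x, _, h⟩ := hp r hr
        exact ⟨t, ht, x, mem_univ _, h⟩) x hx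
    simpa only [sat_and, sat_dSub, sat_dTrans, cons_zero, cons_one] using h1
  exact ⟨fun x hx => (h x hx).1, fun x hx => (h x hx).2⟩

/-- decide a value -/
theorem decide_value {γ ν : Name P} {s : Set Ordinal.{0}} {r : P}
    (h : ∀ V : GenUlt P, V.Has r →
      ∃ y, ModE V y (V.cl (chS s)) ∧ IsApp (ModE V) (V.cl γ) (V.cl ν) y) :
    ∃ t, t ≤ r ∧ ∃ i ∈ s, MemF (opN ν (chk i)) γ t := by
  have h1 : Forces (fex (.fand (.fmem 0 1) (dApp 2 3 0)))
      (cons (chS s) (cons γ fun _ => ν)) r := by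
    rw [forces_iff]
    intro V hV
    simp only [sat_ex, sat_and, sat_mem, sat_dApp, cons_zero, cons_one, cons_two, cons_three]
    exact h V hV
  rw [forces_ex] at h1
  obtain ⟨r1, hr1, σ, h2⟩ := h1 r le_rfl
  rw [forces_and, forces_mem, forces_dApp] at h2
  obtain ⟨t, ht, i, hi, h4⟩ := memF_chS.1 h2.1 r1 le_rfl
  exact ⟨t, ht.trans hr1, i, hi, MemF.congr_left (eqF_opN.2 ⟨EqF.refl _ _, h4⟩) (h2.2.mono ht)⟩

/-- decide an argument -/
theorem decide_arg {γ ν : Name P} {s : Set Ordinal.{0}} {r : P}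
    (h : ∀ V : GenUlt P, V.Has r →
      ∃ x, ModE V x (V.cl (chS s)) ∧ IsApp (ModE V) (V.cl γ) x (V.cl ν)) :
    ∃ t, t ≤ r ∧ ∃ i ∈ s, MemF (opN (chk i) ν) γ t := by
  have h1 : Forces (fex (.fand (.fmem 0 1) (dApp 2 0 3)))
      (cons (chS s) (cons γ fun _ => ν)) r := by
    rw [forces_iff]
    intro V hV
    simp only [sat_ex, sat_and, sat_mem, sat_dApp, cons_zero, cons_one, cons_two, cons_three]
    exact h V hV
  rw [forces_ex] at h1
  obtain ⟨r1, hr1, σ, h2⟩ := h1 r le_rfl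
  rw [forces_and, forces_mem, forces_dApp] at h2
  obtain ⟨t, ht, i, hi, h4⟩ := memF_chS.1 h2.1 r1 le_rfl
  exact ⟨t, ht.trans hr1, i, hi, MemF.congr_left (eqF_opN.2 ⟨h4, EqF.refl _ _⟩) (h2.2.mono ht)⟩

/-- decide an argument in `ω` -/
theorem decide_nat {γ ν : Name P} {r : P}
    (h : ∀ V : GenUlt P, V.Has r →
      ∃ x, ModE V x (V.cl omegaN) ∧ IsApp (ModE V) (V.cl γ) x (V.cl ν)) :
    ∃ t, t ≤ r ∧ ∃ n : ℕ, MemF (opN (natN n) ν) γ t := by
  have h1 : Forces (fex (.fand (.fmem 0 1) (dApp 2 0 3)))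
      (cons omegaN (cons γ fun _ => ν)) r := by
    rw [forces_iff]
    intro V hV
    simp only [sat_ex, sat_and, sat_mem, sat_dApp, cons_zero, cons_one, cons_two, cons_three]
    exact h V hV
  rw [forces_ex] at h1
  obtain ⟨r1, hr1, σ, h2⟩ := h1 r le_rfl
  rw [forces_and, forces_mem, forces_dApp] at h2
  obtain ⟨t, ht, n, h4⟩ := memF_omegaN.1 h2.1 r1 le_rfl
  exact ⟨t, ht.trans hr1, n, MemF.congr_left (eqF_opN.2 ⟨h4, EqF.refl _ _⟩) (h2.2.mono ht)⟩

theorem app_of {γ ν ν' : Name P} {r : P} (h : MemF (opN ν ν') γ r) {V : GenUlt P}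
    (hV : V.Has r) : IsApp (ModE V) (V.cl γ) (V.cl ν) (V.cl ν') :=
  (isApp_iff V _ _ _).2 (GenUlt.Ev.imp hV fun _ ht => h.mono ht)

end General

/-! ### `ω₁` -/

theorem surj_omega {i : Ordinal.{0}} (hi : i < w1) (h0 : 0 < i) (V : GenUlt Pm) {q : Pm}
    (hV : V.Has q) : HasSurj (ModE V) (V.cl omegaN) (V.cl (chk i)) := by
  obtain ⟨e, he⟩ := (w1_countable hi).exists_eq_range ⟨0, h0⟩
  refine hasSurj_relN V (ι := ULift.{1} ℕ) (fun n => natN n.down) (fun n => chk (e n.down))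
    (A := fun _ _ => True) (fun _ _ _ h _ => h) omegaN (chk i) hV ?_ ?_ ?_ ?_
  · intro r _ n _
    refine ⟨natN_mem_omegaN _ _, chk_mem ?_ _⟩
    have : e n.down ∈ Iio i := by rw [he]; exact mem_range_self _
    exact this
  · intro ρ r _ h
    obtain ⟨s, hs, n, hn⟩ := memF_omegaN.1 h r le_rfl
    exact ⟨s, hs, ⟨n⟩, trivial, hn⟩
  · intro n n' r _ _ _ h
    have h1 : n.down = n'.down := natN_inj h
    show EqF (chk (e n.down)) (chk (e n'.down)) r
    rw [h1]
    exact EqF.refl _ _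
  · intro ρ r _ h
    obtain ⟨s, hs, x, hx, h1⟩ := memF_chk.1 h r le_rfl
    have h2 : x ∈ range e := by rw [← he]; exact hx
    obtain ⟨n, rfl⟩ := h2
    exact ⟨s, hs, ⟨n⟩, trivial, h1⟩

theorem not_surj_omega (U : GenUlt Pm) :
    ¬ HasSurj (ModE U) (U.cl omegaN) (U.cl (chk w1)) := by
  rintro ⟨g, hg1, hg2⟩
  obtain ⟨γ, rfl⟩ := exists_cl g
  obtain ⟨p0, hp0⟩ := exists_forces (U := U) (φ := .fand (dFun 0 1 2) (fball 2 (fex (dApp 2 0 1))))
    (v := cons γ (cons omegaN fun _ => chk w1)) (by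
      simp only [sat_and, sat_dFun, sat_ball, sat_ex, sat_dApp, cons_zero, cons_one, cons_two]
      exact ⟨hg1, hg2⟩)
  have hF : ∀ V : GenUlt Pm, V.Has p0 →
      IsFun (ModE V) (V.cl γ) (V.cl omegaN) (V.cl (chk w1)) ∧
      ∀ y, ModE V y (V.cl (chk w1)) → ∃ x, IsApp (ModE V) (V.cl γ) x y := by
    intro V hV
    have := forces_iff.1 hp0 V hV
    simpa only [sat_and, sat_dFun, sat_ball, sat_ex, sat_dApp, cons_zero, cons_one, cons_two]
      using this
  -- decide all the values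
  obtain ⟨q, hq, hD⟩ := Cnd.distr (fun n p =>
      (∃ i < w1, MemF (opN (natN n) (chk i)) γ p) ∨ ∀ r, r ≤ p → ¬ r ≤ p0)
    (by
      rintro n p q (⟨i, hi, h⟩ | h) hq
      · exact Or.inl ⟨i, hi, h.mono hq⟩
      · exact Or.inr fun r hr => h r (hr.trans hq))
    (by
      intro n p
      by_cases h : ∃ r, r ≤ p ∧ r ≤ p0
      · obtain ⟨r, hr, hr0⟩ := h
        obtain ⟨t, ht, i, hi, h1⟩ := decide_value (γ := γ) (ν := natN n) (s := Iio w1) (r := r)
          (fun V hV => by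
            obtain ⟨h2, _⟩ := hF V (hV.mono hr0)
            obtain ⟨y, ⟨hy, hy'⟩, _⟩ := h2.2 (V.cl (natN n)) (mem_of hV (natN_mem_omegaN n r))
            rw [chk_chS] at hy
            exact ⟨y, hy, hy'⟩)
        exact ⟨t, ht.trans hr, Or.inl ⟨i, hi, h1⟩⟩
      · push Not at h
        exact ⟨p, le_rfl, Or.inr h⟩) p0
  have hD' : ∀ n, ∃ i < w1, MemF (opN (natN n) (chk i)) γ q := by
    intro n
    rcases hD n with h | h
    · exact h
    · exact absurd hq (h q le_rfl)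
  choose i hi1 hi2 using hD'
  apply w1_uncountable
  refine (countable_range i).mono ?_
  intro j hj
  obtain ⟨t, ht, n, h1⟩ := decide_nat (γ := γ) (ν := chk j) (r := q) (fun V hV => by
    obtain ⟨h2, h3⟩ := hF V (hV.mono hq)
    obtain ⟨x, hx⟩ := h3 _ ((mod_chk_mem V).2 hj)
    exact ⟨x, (isFun_mem (mod_isZFC V) h2 hx).1, hx⟩)
  refine ⟨n, ?_⟩
  obtain ⟨V, hV⟩ := exists_genUlt t
  exact (mod_chk_eq V).1 (isFun_unique (mod_isZFC V) (hF V ((hV.mono ht).mono hq)).1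
    (app_of (hi2 n) (hV.mono ht)) (app_of h1 hV))

theorem next_w1 (U : GenUlt Pm) {q : Pm} (hq : U.Has q) :
    IsNextCard (ModE U) (U.cl omegaN) (U.cl (chk w1)) := by
  have hpos : (0 : Ordinal.{0}) < w1 := by
    show (0 : Ordinal.{0}) < (Cardinal.aleph 1).ord
    rw [Cardinal.lt_ord, Ordinal.card_zero]
    exact Cardinal.aleph_pos 1
  refine ⟨mod_ordinal_chk U w1, ⟨_, (mod_chk_mem U).2 hpos⟩, ?_, not_surj_omega U⟩
  intro x hx
  rw [chk_chS] at hx
  have h1 := mod_bounded_chS U (Iio w1) (fimp (fex (.fmem 0 1)) (fSurj 1 0)) (fun _ => omegaN) hq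
    (fun i hi r _ V hV => by
      simp only [sat_imp, sat_ex, sat_mem, sat_fSurj, cons_zero, cons_one]
      rintro ⟨y, hy⟩
      obtain ⟨ζ, rfl⟩ := exists_cl y
      rw [modE_cl, ev_memF_chk] at hy
      obtain ⟨_, x, hx, _⟩ := hy.exists
      exact surj_omega hi (pos_iff_ne_zero.2 (by rintro rfl; exact absurd hx (by simp)))
        V hV) x hx
  simpa only [sat_imp, sat_ex, sat_mem, sat_fSurj, cons_zero, cons_one] using h1

end Pool.Agent.Lib.MP_5c1789_lc
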