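import Pool.Agent.Lib.MP_5c1789_lc.Two

/-!
# The Kurepa tree: the functions of the ground model from old ordinals to `2`
-/

set_option linter.unusedSimpArgs false

open Set Cardinal

namespace Pool.Agent.Lib.MP_5c1789_lc

open Pool.Agent.Lib.Forcing Pool.Agent.Lib.MP_40b13d_lc

section General

variable {P : Type 1} [Preorder P]

open Classical in
/-- the characteristic function -/
noncomputable def bt (H : Set Ordinal.{0}) (x : Ordinal.{0}) : Ordinal.{0} :=
  if x ∈ H then 1 else 0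

theorem bt_inj {H H' : Set Ordinal.{0}} {x : Ordinal.{0}} (h : bt H x = bt H' x) :
    x ∈ H ↔ x ∈ H' := by
  unfold bt at h
  by_cases h1 : x ∈ H <;> by_cases h2 : x ∈ H' <;> simp_all

theorem bt_congr {H H' : Set Ordinal.{0}} {x : Ordinal.{0}} (h : x ∈ H ↔ x ∈ H') :
    bt H x = bt H' x := by
  unfold bt
  by_cases h1 : x ∈ H
  · rw [if_pos h1, if_pos (h.1 h1)]
  · rw [if_neg h1, if_neg fun h2 => h1 (h.2 h2)]

/-- the name of the characteristic function of `H` on `s` -/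
noncomputable def fnN (s H : Set Ordinal.{0}) : Name P :=
  relN (ι := s) (fun x => chk x.1) (fun x => chk (bt H x.1)) (fun _ _ => True)

omit [Preorder P] in
theorem fnN_congr {s H H' : Set Ordinal.{0}} (h : ∀ x ∈ s, (x ∈ H ↔ x ∈ H')) :
    (fnN s H : Name P) = fnN s H' := by
  unfold fnN
  congr 1
  funext x
  rw [bt_congr (h x.1 x.2)]

theorem fnN_isFun (U : GenUlt P) (s H : Set Ordinal.{0}) :
    IsFun (ModE U) (U.cl (fnN s H)) (U.cl (chS s)) (U.cl w2N) := by
  have key : ∀ V : GenUlt P, ∀ q, V.Has q →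
      IsFun (ModE V) (V.cl (fnN s H)) (V.cl (chS s)) (V.cl w2N) := by
    intro V q hq
    refine isFun_relN V (ι := s) _ _ (fun _ _ _ h _ => h) (chS s) w2N hq ?_ ?_ ?_
    · intro r _ x _
      exact ⟨chk_mem_chS x.2 r, chk_mem_chS (mem_univ _) r⟩
    · intro ρ r _ h
      obtain ⟨t, ht, x, hx, h1⟩ := memF_chS.1 h r le_rfl
      exact ⟨t, ht, ⟨x, hx⟩, trivial, h1⟩
    · intro x x' r _ _ _ h
      have h1 : x = x' := Subtype.ext (chk_inj h)
      subst h1
      exact EqF.refl _ _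
  have h := (los U (dFun 0 1 2) (cons (fnN s H) (cons (chS s) fun _ => w2N))).2
    (GenUlt.ev_true fun p => forces_iff.2 fun V hV => by
      simp only [sat_dFun, cons_zero, cons_one, cons_two]
      exact key V p hV)
  simpa only [sat_dFun, cons_zero, cons_one, cons_two] using h

theorem app_fnN (V : GenUlt P) {s H : Set Ordinal.{0}} {x : Ordinal.{0}} {y : Mod V} :
    IsApp (ModE V) (V.cl (fnN s H)) (V.cl (chk x)) y ↔ x ∈ s ∧ y = V.cl (chk (bt H x)) := by
  obtain ⟨υ, rfl⟩ := exists_cl y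
  rw [fnN, isApp_relN V _ _ (fun _ _ _ h _ => h)]
  constructor
  · intro h
    obtain ⟨p, i, _, h1, _⟩ := h.exists
    have h2 : x = i.1 := chk_inj h1
    refine ⟨h2 ▸ i.2, ?_⟩
    rw [cl_eq]
    refine GenUlt.Ev.imp h ?_
    rintro q ⟨j, _, h3, h4⟩
    rw [chk_inj h3]
    exact h4
  · rintro ⟨hx, h⟩
    rw [cl_eq] at h
    exact GenUlt.Ev.imp h fun q hq => ⟨⟨x, hx⟩, trivial, EqF.refl _ _, hq⟩

theorem fnN_sub (V : GenUlt P) {s s' : Set Ordinal.{0}} (h : s ⊆ s') (H : Set Ordinal.{0}) :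
    IsSub (ModE V) (V.cl (fnN s H)) (V.cl (fnN s' H)) := by
  intro z hz
  obtain ⟨ζ, rfl⟩ := exists_cl z
  rw [modE_cl, fnN, relN, ev_memF_cn (fun _ _ _ h _ => h)] at hz ⊢
  exact GenUlt.Ev.imp hz fun p ⟨i, _, hi⟩ => ⟨⟨i.1, h i.2⟩, trivial, hi⟩

theorem fnN_inj {s H H' : Set Ordinal.{0}} {r : P} (h : EqF (fnN s H) (fnN s H') r)
    {x : Ordinal.{0}} (hx : x ∈ s) : x ∈ H ↔ x ∈ H' := by
  obtain ⟨V, hV⟩ := exists_genUlt r
  have h1 := cl_congr hV h
  have h2 : IsApp (ModE V) (V.cl (fnN s H)) (V.cl (chk x)) (V.cl (chk (bt H x))) :=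
    (app_fnN V).2 ⟨hx, rfl⟩
  rw [h1] at h2
  exact bt_inj ((mod_chk_eq V).1 ((app_fnN V).1 h2).2)

/-- a function below a characteristic function -/
theorem restr (V : GenUlt P) {s H : Set Ordinal.{0}} {a : Ordinal.{0}} {t : Mod V}
    (h1 : IsFun (ModE V) t (V.cl (chk a)) (V.cl w2N))
    (h2 : IsSub (ModE V) t (V.cl (fnN s H))) :
    Iio a ⊆ s ∧ t = V.cl (fnN (Iio a) H) := by
  have hZ := mod_isZFC V
  have h3 : Iio a ⊆ s := by
    intro x hx
    obtain ⟨y, ⟨_, z, hz, hz'⟩, _⟩ := h1.2 (V.cl (chk x)) ((mod_chk_mem V).2 hx)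
    exact ((app_fnN V).1 ⟨z, h2 z hz, hz'⟩).1
  refine ⟨h3, ?_⟩
  have h4 := fnN_isFun V (Iio a) H
  have h5 := fnN_isFun V s H
  have h4' := h4
  rw [← chk_chS] at h4'
  refine isFun_ext hZ h1 h4 fun x y => ?_
  constructor
  · intro hxy
    obtain ⟨z, hz, hz'⟩ := hxy
    have h6 : IsApp (ModE V) (V.cl (fnN s H)) x y := ⟨z, h2 z hz, hz'⟩
    obtain ⟨y', ⟨_, h7⟩, _⟩ := h4'.2 x (isFun_mem hZ h1 ⟨z, hz, hz'⟩).1
    obtain ⟨w, hw, hw'⟩ := h7
    rw [isFun_unique hZ h5 h6 ⟨w, fnN_sub V h3 H w hw, hw'⟩]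
    exact ⟨w, hw, hw'⟩
  · intro hxy
    obtain ⟨w, hw, hw'⟩ := hxy
    have h6 : IsApp (ModE V) (V.cl (fnN s H)) x y := ⟨w, fnN_sub V h3 H w hw, hw'⟩
    obtain ⟨y', ⟨_, z, hz, hz'⟩, _⟩ := h1.2 x (isFun_mem hZ h4' ⟨w, hw, hw'⟩).1
    rw [isFun_unique hZ h5 h6 ⟨z, h2 z hz, hz'⟩]
    exact ⟨z, hz, hz'⟩

/-- the tree -/
noncomputable def treeN : Name P :=
  cn (ι := Ordinal.{0} × Set Ordinal.{0}) (fun t => fnN (Iio t.1) t.2) (fun _ _ => True)

theorem fnN_mem_tree (V : GenUlt P) (a : Ordinal.{0}) (H : Set Ordinal.{0}) :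
    ModE V (V.cl (fnN (Iio a) H)) (V.cl treeN) := by
  rw [modE_cl, treeN, ev_memF_cn (fun _ _ _ h _ => h)]
  exact GenUlt.ev_true fun p => ⟨(a, H), trivial, EqF.refl _ _⟩

theorem restr_mem (V : GenUlt P) {q : P} (hq : V.Has q) {s H : Set Ordinal.{0}} :
    ∀ a t, ModE V a (V.cl w2N) → IsFun (ModE V) t a (V.cl w2N) →
      IsSub (ModE V) t (V.cl (fnN s H)) → ModE V t (V.cl treeN) := by
  have h := fun a ha => mod_bounded_chS V Set.univ
    (.fall (fimp (dFun 0 1 2) (fimp (dSub 0 3) (.fmem 0 4))))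
    (cons w2N (cons (fnN s H) fun _ => treeN)) hq
    (fun i _ r _ V hV => by
      simp only [sat_all, sat_imp, sat_dFun, sat_dSub, sat_mem, cons_zero, cons_one, cons_two,
        cons_three, cons_four]
      intro t h1 h2
      rw [(restr V h1 h2).2]
      exact fnN_mem_tree V _ _) a ha
  simp only [sat_all, sat_imp, sat_dFun, sat_dSub, sat_mem, cons_zero, cons_one, cons_two,
        cons_three, cons_four] at h
  exact fun a t ha => h a ha t

theorem tree_subtree (U : GenUlt P) {q : P} (hq : U.Has q) :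
    IsSubtree (ModE U) (U.cl w2N) (U.cl treeN) := by
  constructor
  · intro t ht
    have h := mod_bounded U (fun t : Ordinal.{0} × Set Ordinal.{0} => fnN (Iio t.1) t.2)
      (A := fun _ _ => True) (fun _ _ _ h _ => h)
      (fex (.fand (.fmem 0 2) (dFun 1 0 2))) (fun _ => w2N) hq
      (fun i r _ _ V hV => by
        simp only [sat_ex, sat_and, sat_mem, sat_dFun, cons_zero, cons_one, cons_two]
        refine ⟨V.cl (chk i.1), (mod_chS_mem V).2 (mem_univ _), ?_⟩
        rw [chk_chS]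
        exact fnN_isFun V _ _) t ht
    simpa only [sat_ex, sat_and, sat_mem, sat_dFun, cons_zero, cons_one, cons_two] using h
  · intro t ht
    have h := mod_bounded U (fun t : Ordinal.{0} × Set Ordinal.{0} => fnN (Iio t.1) t.2)
      (A := fun _ _ => True) (fun _ _ _ h _ => h)
      (.fall (.fall (fimp (.fmem 1 3) (fimp (dFun 0 1 3) (fimp (dSub 0 2) (.fmem 0 4))))))
      (cons w2N fun _ => treeN) hq
      (fun i r _ _ V hV => by
        simp only [sat_all, sat_imp, sat_mem, sat_dFun, sat_dSub, cons_zero, cons_one, cons_two,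
          cons_three, cons_four]
        intro a s ha hs hs'
        exact restr_mem V hV a s ha hs hs') t ht
    simp only [sat_all, sat_imp, sat_mem, sat_dFun, sat_dSub, cons_zero, cons_one, cons_two,
          cons_three, cons_four] at h
    exact h

/-- transfer of an implication -/
theorem los_imp (U : GenUlt P) {φ ψ : Fml} {v : ℕ → Name P} {q : P} (hq : U.Has q)
    (h : ∀ p, p ≤ q → Forces φ v p → ∀ V : GenUlt P, V.Has p →
      Sat (ModE V) ψ (fun n => V.cl (v n)))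
    (hφ : Sat (ModE U) φ (fun n => U.cl (v n))) : Sat (ModE U) ψ (fun n => U.cl (v n)) := by
  rw [los] at hφ ⊢
  refine GenUlt.Ev.imp2 hq hφ fun p hp h1 => ?_
  rw [forces_iff]
  exact fun V hV => h p hp h1 V hV

end General

/-! ### levels -/

theorem level_aux {a : Ordinal.{0}} {l : Name Pm} {q : Pm}
    (hl : ∀ V : GenUlt Pm, V.Has q →
      IsLevel (ModE V) (V.cl w2N) (V.cl treeN) (V.cl (chk a)) (V.cl l))
    {V : GenUlt Pm} (hV : V.Has q) : HasSurj (ModE V) (V.cl (chk w1)) (V.cl l) := by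
  refine col_surj a (fun S => fnN (Iio a) S) l hV ?_ ?_
  · intro S _ r hr
    rw [memF_iff_models]
    intro V hV
    refine (hl V (hV.mono hr) _).2 ⟨fnN_mem_tree V _ _, ?_⟩
    rw [chk_chS]
    exact fnN_isFun V _ _
  · intro ρ r hr h
    have h1 : MemF ρ treeN r := memF_iff_models.2 fun V hV =>
      ((hl V (hV.mono hr) _).1 (memF_iff_models.1 h V hV)).1
    rw [treeN, memF_cn (fun _ _ _ h _ => h)] at h1
    obtain ⟨s, hs, ⟨o, H⟩, _, h2⟩ := h1 r le_rfl
    refine ⟨s, hs, H ∩ Iio a, inter_subset_right, ?_⟩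
    obtain ⟨V, hV⟩ := exists_genUlt s
    have h3 := ((hl V (hV.mono (hs.trans hr)) _).1 (memF_iff_models.1 h V (hV.mono hs))).2
    rw [cl_congr hV h2] at h3
    have h4 := fnN_isFun V (Iio o) H
    rw [← chk_chS] at h4
    have h5 : a = o := (mod_chk_eq V).1 (isFun_dom (mod_isZFC V) h3 h4)
    subst h5
    have h6 : (fnN (Iio a) (H ∩ Iio a) : Name Pm) = fnN (Iio a) H :=
      fnN_congr fun x hx => ⟨fun h => h.1, fun h => ⟨h, hx⟩⟩
    show EqF ρ (fnN (Iio a) (H ∩ Iio a)) s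
    rw [h6]
    exact h2

theorem tree_levels (U : GenUlt Pm) {q : Pm} (hq : U.Has q) (a l : Mod U)
    (ha : ModE U a (U.cl w2N)) (hl : IsLevel (ModE U) (U.cl w2N) (U.cl treeN) a l) :
    HasSurj (ModE U) (U.cl (chk w1)) l := by
  have h := mod_bounded_chS U Set.univ
    (.fall (fimp (fLevel 2 3 1 0) (fSurj 4 0)))
    (cons w2N (cons treeN fun _ => chk w1)) hq
    (fun i _ r _ V hV => by
      simp only [sat_all, sat_imp, sat_fLevel, sat_fSurj, cons_zero, cons_one, cons_two,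
        cons_three, cons_four]
      intro l hl
      obtain ⟨l, rfl⟩ := exists_cl l
      have h1 := los_imp V (φ := fLevel 1 2 3 0) (ψ := fSurj 4 0)
        (v := cons l (cons w2N (cons treeN (cons (chk i) fun _ => chk w1)))) hV
        (fun p _ hp V hV => by
          simp only [sat_fSurj, cons_zero, cons_one, cons_two, cons_three, cons_four]
          refine level_aux (a := i) (q := p) (fun W hW => ?_) hV
          have := forces_iff.1 hp W hW
          simpa only [sat_fLevel, cons_zero, cons_one, cons_two, cons_three, cons_four] using this)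
        (by simpa only [sat_fLevel, cons_zero, cons_one, cons_two, cons_three, cons_four] using hl)
      simpa only [sat_fSurj, cons_zero, cons_one, cons_two, cons_three, cons_four] using h1) a ha
  simp only [sat_all, sat_imp, sat_fLevel, sat_fSurj, cons_zero, cons_one, cons_two,
        cons_three, cons_four] at h
  exact h l hl

/-! ### branches -/

theorem branch_mem (V : GenUlt Pm) {q : Pm} (hq : V.Has q) {b : Mod V}
    (hb : IsBranchSet (ModE V) (V.cl w2N) (V.cl treeN) b) (H : Set Ordinal.{0}) :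
    ModE V (V.cl (fnN Set.univ H)) b :=
  (hb _).2 ⟨fnN_isFun V _ _, fun a s ha hs hs' => restr_mem V hq a s ha hs hs'⟩

theorem many {c : Set Ordinal.{0} → Ordinal.{0}} (h : ∀ a, Small.{0} {x | c x = a}) : False := by
  have hinj : ∀ a, ∃ i : {x | c x = a} → Ordinal.{0}, Function.Injective i := by
    intro a
    have := h a
    refine ⟨fun x => (embeddingToCardinal (equivShrink.{0} _ x)).ord, ?_⟩
    intro x y hxy
    exact (equivShrink _).injective (embeddingToCardinal.injective (Cardinal.ord_injective hxy))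
  choose i hi using hinj
  have h1 : #(Set Ordinal.{0}) ≤ #(Ordinal.{0} × Ordinal.{0}) := by
    refine mk_le_of_injective (f := fun x => (c x, i (c x) ⟨x, rfl⟩)) ?_
    intro x y hxy
    have h2 : c x = c y := congrArg Prod.fst hxy
    have h3 : i (c x) ⟨x, rfl⟩ = i (c y) ⟨y, rfl⟩ := congrArg Prod.snd hxy
    have h4 : ∀ a b (ha : c x = a) (hb : c y = b), a = b → i a ⟨x, ha⟩ = i b ⟨y, hb⟩ → x = y := by
      rintro a _ ha hb rfl h5
      exact congrArg Subtype.val (hi a h5)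
    exact h4 _ _ rfl rfl h2 h3
  rw [mk_prod, lift_id, mul_eq_self ord_inf, mk_set] at h1
  exact absurd h1 (not_le.2 (cantor _))

theorem tree_branches (U : GenUlt Pm) {q : Pm} (_hq : U.Has q) (b : Mod U)
    (hb : IsBranchSet (ModE U) (U.cl w2N) (U.cl treeN) b) :
    ¬ HasSurj (ModE U) (U.cl w2N) b := by
  rintro ⟨g, hg1, hg2⟩
  obtain ⟨γ, rfl⟩ := exists_cl g
  obtain ⟨β, rfl⟩ := exists_cl b
  obtain ⟨p0, hp0⟩ := exists_forces (U := U)
    (φ := .fand (fBranchSet 2 3 1) (.fand (dFun 0 2 1) (fball 1 (fex (dApp 2 0 1)))))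
    (v := cons γ (cons β (cons w2N fun _ => treeN))) (by
      simp only [sat_and, sat_fBranchSet, sat_dFun, sat_ball, sat_ex, sat_dApp, cons_zero,
        cons_one, cons_two, cons_three]
      exact ⟨hb, hg1, hg2⟩)
  have hF : ∀ V : GenUlt Pm, V.Has p0 →
      IsBranchSet (ModE V) (V.cl w2N) (V.cl treeN) (V.cl β) ∧
      IsFun (ModE V) (V.cl γ) (V.cl w2N) (V.cl β) ∧
      ∀ y, ModE V y (V.cl β) → ∃ x, IsApp (ModE V) (V.cl γ) x y := by
    intro V hV
    have := forces_iff.1 hp0 V hV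
    simpa only [sat_and, sat_fBranchSet, sat_dFun, sat_ball, sat_ex, sat_dApp, cons_zero,
        cons_one, cons_two, cons_three] using this
  obtain ⟨c, _, hs⟩ := covering (X := Set Ordinal.{0}) (fun H => fnN Set.univ H)
    (fun H H' r h => Set.ext fun x => fnN_inj h (mem_univ x)) Set.univ γ p0
    (fun V hV z u u' h h' => isFun_unique (mod_isZFC V) (hF V hV).2.1 h h')
    (fun H V hV => by
      obtain ⟨h1, h2, h3⟩ := hF V hV
      obtain ⟨z, hz⟩ := h3 _ (branch_mem V hV h1 H)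
      exact ⟨z, (isFun_mem (mod_isZFC V) h2 hz).1, hz⟩)
  exact many hs

theorem exists_kurepa (U : GenUlt Pm) {q : Pm} (hq : U.Has q) :
    ∃ T, IsKurepa (ModE U) (U.cl (chk w1)) (U.cl w2N) T :=
  ⟨U.cl treeN, tree_subtree U hq, fun a l ha hl _ => tree_levels U hq a l ha hl,
    fun b hb => ⟨⟨_, branch_mem U hq hb ∅⟩, tree_branches U hq b hb⟩⟩

end Pool.Agent.Lib.MP_5c1789_lc
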