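import Pool.Agent.Lib.MP_5c1789_lc.Ords

/-!
# The second uncountable cardinal of the extension is the set of the old small ordinals
-/

set_option linter.unusedSimpArgs false

open Set Cardinal

namespace Pool.Agent.Lib.MP_5c1789_lc

open Pool.Agent.Lib.Forcing Pool.Agent.Lib.MP_40b13d_lc

/-- covering: a function with small range of arguments has few old values -/
theorem covering {X : Type 1} (y : X → Name Pm)
    (hy : ∀ x x' (r : Pm), EqF (y x) (y x') r → x = x')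
    (s : Set Ordinal.{0}) (γ : Name Pm) (p0 : Pm)
    (hfun : ∀ V : GenUlt Pm, V.Has p0 → ∀ z u u', IsApp (ModE V) (V.cl γ) z u →
      IsApp (ModE V) (V.cl γ) z u' → u = u')
    (hex : ∀ x, ∀ V : GenUlt Pm, V.Has p0 → ∃ z, ModE V z (V.cl (chS s)) ∧
      IsApp (ModE V) (V.cl γ) z (V.cl (y x))) :
    ∃ c : X → Ordinal.{0}, (∀ x, c x ∈ s) ∧ ∀ a, Small.{0} {x | c x = a} := by
  have h1 : ∀ x, ∃ t, t ≤ p0 ∧ ∃ i ∈ s, MemF (opN (chk i) (y x)) γ t := fun x =>
    decide_arg (fun V hV => hex x V hV)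
  choose t ht i hi hm using h1
  refine ⟨i, hi, fun a => ?_⟩
  have inj : ∀ x x', i x = a → i x' = a → (∃ r, r ≤ t x ∧ r ≤ t x') → x = x' := by
    rintro x x' hx hx' ⟨r, hr, hr'⟩
    obtain ⟨V, hV⟩ := exists_genUlt r
    have h2 := app_of (hm x) (hV.mono hr)
    have h3 := app_of (hm x') (hV.mono hr')
    rw [hx] at h2
    rw [hx'] at h3
    have h4 := hfun V ((hV.mono hr).mono (ht x)) _ _ _ h2 h3
    rw [cl_eq] at h4
    obtain ⟨r', hr''⟩ := h4.exists
    exact hy _ _ _ hr''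
  have hW : Small.{0} {p | ∃ x, i x = a ∧ t x = p} := by
    apply Cnd.cc
    rintro _ ⟨x, hx, rfl⟩ _ ⟨x', hx', rfl⟩ h
    rw [inj x x' hx hx' h]
  refine small_of_injective (β := {p | ∃ x, i x = a ∧ t x = p})
    (f := fun x => ⟨t x.1, x.1, x.2, rfl⟩) ?_
  rintro ⟨x, hx⟩ ⟨x', hx'⟩ h
  simp only [Subtype.mk.injEq] at h
  exact Subtype.ext (inj x x' hx hx' ⟨t x, le_rfl, h ▸ le_rfl⟩)

/-- the generic functions from `ω₁` -/
theorem col_surj (a : Ordinal.{0}) (τ : Set Ordinal.{0} → Name Pm) (l : Name Pm) {q : Pm}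
    {V : GenUlt Pm} (hV : V.Has q)
    (h1 : ∀ S ⊆ Iio a, ∀ r, r ≤ q → MemF (τ S) l r)
    (h2 : ∀ ρ, ∀ r, r ≤ q → MemF ρ l r → ∃ s, s ≤ r ∧ ∃ S, S ⊆ Iio a ∧ EqF ρ (τ S) s) :
    HasSurj (ModE V) (V.cl (chk w1)) (V.cl l) := by
  refine hasSurj_relN V (ι := Iio w1 × Set Ordinal.{0}) (fun t => chk t.1.1) (fun t => τ t.2)
    (A := fun t p => p.f (Sum.inl a, t.1) = some t.2) (fun t p q h hq => hq _ _ h)
    (chk w1) l hV ?_ ?_ ?_ ?_
  · intro r hr t ht
    exact ⟨chk_mem t.1.2 r, h1 _ (r.bd _ _ ht) r hr⟩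
  · intro ρ r _ h
    obtain ⟨s, hs, x, hx, h3⟩ := memF_chk.1 h r le_rfl
    obtain ⟨s', hs', S, hS⟩ := s.dense_dom (Sum.inl a, ⟨x, hx⟩)
    exact ⟨s', hs'.trans hs, (⟨x, hx⟩, S), hS, h3.mono hs'⟩
  · rintro ⟨t, S⟩ ⟨t', S'⟩ r _ ht ht' h
    have e : t = t' := Subtype.ext (chk_inj h)
    subst e
    have e2 : some S = some S' := ht.symm.trans ht'
    simp only [Option.some.injEq] at e2
    subst e2
    exact EqF.refl _ _
  · intro ρ r hr h
    obtain ⟨s, hs, S, hS, h3⟩ := h2 ρ r hr h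
    have h4 : ∃ x : Iio w1, s.f (Sum.inl a, x) = none := by
      by_contra hcon
      push Not at hcon
      apply w1_uncountable
      rw [← countable_coe_iff]
      have h5 : Countable {j | s.f j ≠ none} := s.ct.to_subtype
      refine Function.Injective.countable (β := {j | s.f j ≠ none})
        (f := fun x => ⟨(Sum.inl a, x), hcon x⟩) ?_
      intro x x' hxx
      simpa using hxx
    obtain ⟨x, hx⟩ := h4
    obtain ⟨s', hs', h5⟩ := s.exists_ext hx (S := S) hS
    exact ⟨s', hs'.trans hs, (x, S), h5, h3.mono hs'⟩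

theorem surj_w1 {a : Ordinal.{0}} (h0 : 0 < a) (V : GenUlt Pm) {q : Pm}
    (hV : V.Has q) : HasSurj (ModE V) (V.cl (chk w1)) (V.cl (chk a)) := by
  classical
  refine col_surj a (fun S => chk (if S.Nonempty then sInf S else 0)) (chk a) hV ?_ ?_
  · intro S hS r _
    apply chk_mem
    by_cases h : S.Nonempty
    · rw [if_pos h]
      exact hS (csInf_mem h)
    · rw [if_neg h]
      exact h0
  · intro ρ r _ h
    obtain ⟨s, hs, x, hx, h3⟩ := memF_chk.1 h r le_rfl
    refine ⟨s, hs, {x}, by simpa using hx, ?_⟩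
    simpa using h3

theorem next_w2 (U : GenUlt Pm) {q : Pm} (hq : U.Has q) :
    IsNextCard (ModE U) (U.cl (chk w1)) (U.cl w2N) := by
  refine ⟨mod_ordinal_w2N U q hq, ⟨_, (mod_chS_mem U).2 (mem_univ (0 : Ordinal.{0}))⟩, ?_, ?_⟩
  · intro x hx
    have h1 := mod_bounded_chS U Set.univ (fimp (fex (.fmem 0 1)) (fSurj 1 0)) (fun _ => chk w1) hq
      (fun i _ r _ V hV => by
        simp only [sat_imp, sat_ex, sat_mem, sat_fSurj, cons_zero, cons_one]
        rintro ⟨y, hy⟩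
        obtain ⟨ζ, rfl⟩ := exists_cl y
        rw [modE_cl, ev_memF_chk] at hy
        obtain ⟨_, x, hx, _⟩ := hy.exists
        exact surj_w1 (pos_iff_ne_zero.2 (by rintro rfl; exact absurd hx (by simp)))
          V hV) x hx
    simpa only [sat_imp, sat_ex, sat_mem, sat_fSurj, cons_zero, cons_one] using h1
  · rintro ⟨g, hg1, hg2⟩
    obtain ⟨γ, rfl⟩ := exists_cl g
    obtain ⟨p0, hp0⟩ := exists_forces (U := U)
      (φ := .fand (dFun 0 1 2) (fball 2 (fex (dApp 2 0 1))))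
      (v := cons γ (cons (chk w1) fun _ => w2N)) (by
        simp only [sat_and, sat_dFun, sat_ball, sat_ex, sat_dApp, cons_zero, cons_one, cons_two]
        exact ⟨hg1, hg2⟩)
    have hF : ∀ V : GenUlt Pm, V.Has p0 →
        IsFun (ModE V) (V.cl γ) (V.cl (chk w1)) (V.cl w2N) ∧
        ∀ y, ModE V y (V.cl w2N) → ∃ x, IsApp (ModE V) (V.cl γ) x y := by
      intro V hV
      have := forces_iff.1 hp0 V hV
      simpa only [sat_and, sat_dFun, sat_ball, sat_ex, sat_dApp, cons_zero, cons_one, cons_two]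
        using this
    obtain ⟨c, hc, hs⟩ := covering (X := Ordinal.{0}) chk (fun _ _ _ h => chk_inj h) (Iio w1) γ p0
      (fun V hV z u u' h h' => isFun_unique (mod_isZFC V) (hF V hV).1 h h')
      (fun x V hV => by
        obtain ⟨h1, h2⟩ := hF V hV
        obtain ⟨z, hz⟩ := h2 _ ((mod_chS_mem V).2 (mem_univ x))
        refine ⟨z, ?_, hz⟩
        rw [← chk_chS]
        exact (isFun_mem (mod_isZFC V) h1 hz).1)
    have h1 : Small.{0} ↥(⋃ a : Iio w1, {x | c x = a.1}) := by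
      have : ∀ a : Iio w1, Small.{0} {x | c x = a.1} := fun a => hs a.1
      exact small_iUnion _
    have h2 : (⋃ a : Iio w1, {x | c x = a.1}) = Set.univ := by
      ext x
      simp only [mem_iUnion, mem_univ, iff_true]
      exact ⟨⟨c x, hc x⟩, rfl⟩
    rw [h2] at h1
    exact not_small_ordinal.{0, 0} (small_univ_iff.1 h1)

end Pool.Agent.Lib.MP_5c1789_lc
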